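import Mathlib

set_option autoImplicit false

namespace Pool.Agent.H.MP_daf980_lc
open Finset

/-- sums of two different elements -/
def rs (A : Finset ℤ) : Finset ℤ := A.offDiag.image fun p => p.1 + p.2

lemma mem_rs {A : Finset ℤ} {y : ℤ} : y ∈ rs A ↔ ∃ u ∈ A, ∃ v ∈ A, u ≠ v ∧ u + v = y := by
  simp only [rs, mem_image, mem_offDiag, Prod.exists]
  exact ⟨fun ⟨u, v, ⟨a, b, c⟩, d⟩ => ⟨u, a, v, b, c, d⟩, fun ⟨u, a, v, b, c, d⟩ => ⟨u, v, ⟨a, b, c⟩, d⟩⟩

lemma excl {L A Z : Finset ℤ} (hA : A ⊆ L) (hp : ∀ y ∈ L, 0 < y) (hS : rs A ⊆ L)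
    (iso : ∀ w ∈ L, w ∉ A → w ∉ Z → ∀ y ∈ L, y ≠ w → w + y ∉ L) (hn : 2 * #Z + 6 < #A) :
    Disjoint (rs A) A := by
  have key : ∀ u ∈ A, ∀ v ∈ A, u + v ∈ A → #A ≤ #(A.filter fun z => z + u ∈ A) + #Z + 3 := by
    intro u hu v hv h
    have : A ⊆ (A.filter fun z => z + u ∈ A) ∪ Z.image (· - u) ∪ {u, u + v, v - u} := fun z hz => by
      by_contra c
      simp only [mem_union, mem_filter, mem_image, mem_insert, mem_singleton, not_or, not_and,
        not_exists] at c
      obtain ⟨⟨c1, c2⟩, c3, c4, c5⟩ := c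
      refine iso (z + u) (hS (mem_rs.2 ⟨z, hz, u, hu, c3, rfl⟩)) (c1 hz) (fun k => c2 _ k (by ring))
        v (hA hv) (fun k => c5 (by omega)) (hS (mem_rs.2 ⟨z, hz, u + v, h, c4, by ring⟩))
    have h1 := card_le_card this
    have h2 := card_union_le ((A.filter fun z => z + u ∈ A) ∪ Z.image (· - u)) {u, u + v, v - u}
    have h3 := card_union_le (A.filter fun z => z + u ∈ A) (Z.image (· - u))
    have h4 := card_image_le (s := Z) (f := (· - u))
    have h5 := card_le_three (a := u) (b := u + v) (c := v - u)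
    omega
  rw [disjoint_left]
  intro y hy hy'
  obtain ⟨u, hu, v, hv, -, rfl⟩ := mem_rs.1 hy
  have h1 := key u hu v hv hy'
  obtain ⟨z, hz, hm⟩ := (A.filter fun z => z + u ∈ A).exists_max_image id (card_pos.1 (by omega))
  obtain ⟨z1, z2⟩ := mem_filter.1 hz
  have h2 := key z z1 u hu z2
  have h3 : #(A.filter fun y => y + z ∈ A) ≤ #(A \ A.filter fun z => z + u ∈ A) :=
    card_le_card_of_injOn (· + z) (fun y hy => by
      obtain ⟨y1, y2⟩ := mem_filter.1 (mem_coe.1 hy)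
      refine mem_coe.2 (mem_sdiff.2 ⟨y2, fun k => ?_⟩)
      have := hm _ k
      have := hp y (hA y1)
      simp only [id] at *
      omega) fun _ _ _ _ h => by simpa using h
  have h4 := card_sdiff_add_card_eq_card (filter_subset (fun z => z + u ∈ A) A)
  omega

section
variable {G : Type} [AddCommGroup G] [DecidableEq G]

def dl (B : Finset G) (x : G) : ℕ := #(B.filter fun y => y + x ∉ B)

lemma dl_add (B : Finset G) (x y : G) : dl B (x + y) ≤ dl B x + dl B y := by
  refine le_trans (card_le_card (t := (B.filter fun z => z + x ∉ B) ∪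
    (B.filter fun z => z + y ∉ B).image (· - x)) fun z hz => ?_)
    ((card_union_le _ _).trans (Nat.add_le_add_left card_image_le _))
  simp only [mem_filter, mem_union, mem_image] at *
  by_cases h : z + x ∈ B
  · exact Or.inr ⟨z + x, ⟨h, by rw [add_assoc]; exact hz.2⟩, by simp⟩
  · exact Or.inl ⟨hz.1, h⟩

lemma dl_neg (B : Finset G) (x : G) : dl B (-x) = dl B x := by
  have h1 := card_filter_add_card_filter_not (s := B) (fun y => y + x ∈ B)
  have h2 := card_filter_add_card_filter_not (s := B) (fun y => y + -x ∈ B)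
  have h3 : #(B.filter fun y => y + x ∈ B) = #(B.filter fun y => y + -x ∈ B) :=
    card_nbij' (· + x) (· + -x) (fun y hy => by simp_all) (fun y hy => by simp_all)
      (fun y _ => by simp) fun y _ => by simp
  unfold dl; omega

lemma grp (B : Finset G) (c : ℕ) (h : ∀ x ∈ B, dl B x ≤ c) (hB : 4 * c < #B) :
    ∃ H : AddSubgroup G, (∀ x ∈ B, x ∈ H) ∧ ∀ F : Finset G, (∀ x ∈ F, x ∈ H) → #F ≤ #B + 4 * c := by
  refine ⟨{ carrier := {x | dl B x ≤ 2 * c}
            add_mem' := fun {x y} hx hy => ?_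
            zero_mem' := by simp [dl, filter_false_of_mem]
            neg_mem' := fun {x} hx => by simpa [dl_neg] using hx },
    fun x hx => (h x hx).trans (by omega), fun F hF => ?_⟩
  · have h1 := dl_add B x y
    have h2 := card_filter_add_card_filter_not (s := B) (fun z => z + (x + y) ∈ B)
    simp only [Set.mem_ofPred_eq] at *
    obtain ⟨z, hz⟩ := card_pos.1 (show 0 < #(B.filter fun z => z + (x + y) ∈ B) by unfold dl at *; omega)
    obtain ⟨z1, z2⟩ := mem_filter.1 hz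
    have h3 := dl_add B (z + (x + y)) (-z)
    rw [dl_neg, show z + (x + y) + -z = x + y by abel] at h3
    have := h _ z1
    have := h _ z2
    omega
  · have h1 : ∑ x ∈ F, #(B.filter fun y => y + x ∈ B) ≤ #B * #B := by
      rw [← card_sigma, ← card_product]
      refine card_le_card_of_injOn (fun p => (p.2, p.2 + p.1)) (fun p hp => ?_) ?_
      · simp only [coe_sigma, Set.mem_sigma_iff, mem_coe, mem_filter] at hp
        simp [hp.2.1, hp.2.2]
      · rintro ⟨a, b⟩ - ⟨a', b'⟩ - e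
        simp only [Prod.mk.injEq] at e
        obtain ⟨rfl, e⟩ := e
        obtain rfl := add_left_cancel e
        rfl
    have h2 : #F * (#B - 2 * c) ≤ ∑ x ∈ F, #(B.filter fun y => y + x ∈ B) :=
      card_nsmul_le_sum _ _ _ fun x hx => by
        have h2 := card_filter_add_card_filter_not (s := B) (fun z => z + x ∈ B)
        have : dl B x ≤ 2 * c := hF x hx
        unfold dl at this; omega
    obtain ⟨b, hb⟩ : ∃ b, #B = b + 2 * c := ⟨#B - 2 * c, by omega⟩
    rw [hb] at h1 h2 hB ⊢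
    rw [Nat.add_sub_cancel] at h2
    by_contra k
    nlinarith [Nat.mul_le_mul_right b (not_le.1 k)]
end

lemma base {A : Finset ℤ} {a b : ℤ} (ha : a ∈ A) (hb : b ∈ A) (hab : ∀ u ∈ A, a ≤ u ∧ u ≤ b) (h : a < b) :
    ∃ S ⊆ rs A, #S + 3 = 2 * #A ∧ ∀ y, y ∈ S ↔ (∃ u ∈ A, u ≠ a ∧ a + u = y) ∨
      ∃ u ∈ A, u ≠ a ∧ u ≠ b ∧ b + u = y := by
  have e : ∀ y, y ∈ (A.erase a).image (a + ·) ∪ ((A.erase a).erase b).image (b + ·) ↔
      (∃ u ∈ A, u ≠ a ∧ a + u = y) ∨ ∃ u ∈ A, u ≠ a ∧ u ≠ b ∧ b + u = y := fun y => by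
    simp only [mem_union, mem_image, mem_erase]
    constructor
    · rintro (⟨u, ⟨c, d⟩, e⟩ | ⟨u, ⟨c, d, f⟩, e⟩)
      · exact Or.inl ⟨u, d, c, e⟩
      · exact Or.inr ⟨u, f, d, c, e⟩
    · rintro (⟨u, d, c, e⟩ | ⟨u, f, d, c, e⟩)
      · exact Or.inl ⟨u, ⟨c, d⟩, e⟩
      · exact Or.inr ⟨u, ⟨c, d, f⟩, e⟩
  refine ⟨_, fun y hy => ?_, ?_, e⟩
  · rcases (e y).1 hy with ⟨u, c, d, f⟩ | ⟨u, c, -, d, f⟩
    · exact mem_rs.2 ⟨a, ha, u, c, d.symm, f⟩
    · exact mem_rs.2 ⟨b, hb, u, c, d.symm, f⟩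
  · have b1 : b ∈ A.erase a := mem_erase.2 ⟨h.ne', hb⟩
    rw [card_union_of_disjoint, card_image_of_injective _ (add_right_injective a),
      card_image_of_injective _ (add_right_injective b), card_erase_of_mem b1]
    · have := card_erase_add_one ha
      have := card_pos.2 ⟨b, b1⟩
      omega
    · simp only [disjoint_left, mem_image, mem_erase]
      rintro _ ⟨u, ⟨-, c⟩, rfl⟩ ⟨v, ⟨-, d, f⟩, e⟩
      have := hab u c
      have := hab v f
      omega

lemma struct1 {A : Finset ℤ} {c : ℕ} {a b : ℤ} (ha : a ∈ A) (hb : b ∈ A) (hab : ∀ u ∈ A, a ≤ u ∧ u ≤ b)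
    (h : a < b) (hS : #(rs A) + 3 ≤ 2 * #A + c) (hn : 4 * c + 5 < #A) :
    ∃ d : ℤ, ∃ l : ℕ, 0 < d ∧ b = a + d * l ∧ (∀ u ∈ A, d ∣ u - a) ∧ l ≤ #A + 4 * c + 4 := by
  obtain ⟨S, s1, s2, s3⟩ := base ha hb hab h
  obtain ⟨m, hm⟩ : ∃ m : ℕ, b - a = m := ⟨(b - a).toNat, by omega⟩
  have inj : ∀ x y : ℤ, 0 ≤ x → x < m → 0 ≤ y → y < m → (x : ZMod m) = y → x = y := fun x y a b c d e => by
    have := (ZMod.intCast_eq_intCast_iff' x y m).1 e
    rwa [Int.emod_eq_of_lt a b, Int.emod_eq_of_lt c d] at this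
  obtain ⟨H, h1, h2⟩ := grp (A.image fun u => ((u - a : ℤ) : ZMod m)) (c + 1) (fun x hx => by
    obtain ⟨u, hu, rfl⟩ := mem_image.1 hx
    refine le_trans (card_le_card (t := insert ((u - a : ℤ) : ZMod m)
      ((rs A \ S).image fun y => ((y - u - a : ℤ) : ZMod m))) fun y hy => ?_) ((card_insert_le _ _).trans ?_)
    · obtain ⟨y1, y2⟩ := mem_filter.1 hy
      obtain ⟨v, hv, rfl⟩ := mem_image.1 y1
      by_cases e : v = u
      · simp [e]
      refine mem_insert_of_mem (mem_image.2 ⟨v + u, mem_sdiff.2 ⟨mem_rs.2 ⟨v, hv, u, hu, e, rfl⟩,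
        fun k => y2 ?_⟩, by simp⟩)
      rcases (s3 _).1 k with ⟨w, c, -, f⟩ | ⟨w, c, -, -, f⟩
      · exact mem_image.2 ⟨w, c, by rw [← Int.cast_add]; congr 1; omega⟩
      · refine mem_image.2 ⟨w, c, ?_⟩
        rw [← Int.cast_add, show v - a + (u - a) = w - a + m by omega]
        simp
    · have := card_image_le (s := rs A \ S) (f := fun y => ((y - u - a : ℤ) : ZMod m))
      have := card_sdiff_add_card_eq_card s1
      omega) (by
    have h1 := card_le_card (image_subset_image (f := fun u => ((u - a : ℤ) : ZMod m)) (erase_subset b A))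
    rw [card_image_of_injOn fun x hx y hy e => by
      have := mem_erase.1 (mem_coe.1 hx)
      have := mem_erase.1 (mem_coe.1 hy)
      have := hab x (by tauto)
      have := hab y (by tauto)
      have := inj _ _ (by omega) (by omega) (by omega) (by omega) e
      omega] at h1
    have := card_erase_add_one hb
    omega)
  obtain ⟨d, hd⟩ := Int.subgroup_cyclic (H.comap (Int.castAddHom (ZMod m)))
  have dv : ∀ u ∈ A, |d| ∣ u - a := fun u hu => by
    have : u - a ∈ H.comap (Int.castAddHom (ZMod m)) := h1 _ (mem_image_of_mem _ hu)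
    rw [hd, AddSubgroup.mem_closure_singleton] at this
    obtain ⟨k, hk⟩ := this
    exact (abs_dvd _ _).2 ⟨k, by rw [← hk]; simp [mul_comm]⟩
  obtain ⟨l, hl⟩ := dv b hb
  have d0 : 0 < |d| := abs_pos.2 fun e => by simp [e] at hl; omega
  have l0 : 0 ≤ l := by by_contra k; nlinarith
  lift l to ℕ using l0
  refine ⟨|d|, l, d0, by omega, dv, ?_⟩
  have := h2 ((range l).image fun j : ℕ => ((|d| * j : ℤ) : ZMod m)) fun x hx => by
    obtain ⟨j, -, rfl⟩ := mem_image.1 hx
    change |d| * (j : ℤ) ∈ H.comap (Int.castAddHom (ZMod m))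
    rw [hd, AddSubgroup.mem_closure_singleton]
    obtain ⟨k, hk⟩ : d ∣ |d| * j := (self_dvd_abs d).mul_right _
    exact ⟨k, by rw [hk]; simp [mul_comm]⟩
  rw [card_image_of_injOn fun x hx y hy e => by
    have hx : (x : ℤ) < l := by simpa using hx
    have hy : (y : ℤ) < l := by simpa using hy
    have := inj _ _ (by positivity) (by nlinarith) (by positivity) (by nlinarith) e
    exact_mod_cast mul_left_cancel₀ d0.ne' this, card_range] at this
  have := card_image_le (s := A) (f := fun u => ((u - a : ℤ) : ZMod m))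
  omega

lemma struct {A : Finset ℤ} {c : ℕ} (hS : #(rs A) + 3 ≤ 2 * #A + c) (hn : 16 * c + 30 < #A) :
    ∃ a d : ℤ, ∃ l h : ℕ, ∃ P : Finset ℤ, 0 < d ∧ 0 ∈ P ∧ (∀ p, p ∈ P ↔ a + d * p ∈ A) ∧
      (∀ u ∈ A, ∃ p ∈ P, u = a + d * p) ∧ (∀ p ∈ P, 0 ≤ p ∧ p ≤ l) ∧ l + 1 = #A + h ∧
      #(Icc (0 : ℤ) l \ P) = h ∧ 2 * #A + h ≤ #(rs A) + 3 ∧
      ∀ j : ℤ, 2 * h + 1 ≤ j → j + 2 * h + 1 ≤ 2 * l → 2 * a + d * j ∈ rs A := by
  have ne : A.Nonempty := card_pos.1 (by omega)
  have hab : ∀ u ∈ A, A.min' ne ≤ u ∧ u ≤ A.max' ne := fun u hu => ⟨min'_le _ _ hu, le_max' _ _ hu⟩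
  have lt := min'_lt_max'_of_card A (by omega)
  have ha := min'_mem A ne
  have hb := max'_mem A ne
  generalize A.min' ne = a at *
  generalize A.max' ne = b at *
  obtain ⟨d, l, d0, rfl, dv, hl⟩ := struct1 ha hb hab lt hS (by omega)
  obtain ⟨S, s1, s2, s3⟩ := base ha hb hab lt
  obtain ⟨P, hP⟩ : ∃ P : Finset ℤ, ∀ p, p ∈ P ↔ a + d * p ∈ A :=
    ⟨A.preimage (fun p => a + d * p) fun x _ y _ e => mul_left_cancel₀ d0.ne' (add_left_cancel e),
      fun p => mem_preimage⟩
  have p1 : ∀ u ∈ A, ∃ p ∈ P, u = a + d * p := fun u hu => by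
    obtain ⟨p, hp⟩ := dv u hu
    exact ⟨p, (hP p).2 (by rwa [← hp, add_sub_cancel]), by omega⟩
  have p2 : ∀ p ∈ P, 0 ≤ p ∧ p ≤ l := fun p hp => by
    have := hab _ ((hP p).1 hp)
    constructor <;> by_contra k <;> nlinarith
  have p3 : #P = #A := card_nbij (fun p => a + d * p) (fun p hp => (hP p).1 hp)
    (fun x _ y _ e => mul_left_cancel₀ d0.ne' (add_left_cancel e)) fun u hu => by
      obtain ⟨p, a, b⟩ := p1 u hu
      exact ⟨p, a, b.symm⟩
  have p4 := card_sdiff_add_card_eq_card (show P ⊆ Icc (0 : ℤ) l from fun p hp => mem_Icc.2 (p2 p hp))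
  rw [Int.card_Icc, p3] at p4
  generalize hh : #(Icc (0 : ℤ) l \ P) = h at *
  have p5 : ∀ j : ℤ, 2 * h + 1 ≤ j → j + 2 * h + 1 ≤ 2 * l → 2 * a + d * j ∈ rs A := fun j j1 j2 => by
    by_contra k
    have : Icc (max 0 (j - l)) (min j l) ⊆ insert (j / 2) ((Icc (0 : ℤ) l \ P) ∪
        (Icc (0 : ℤ) l \ P).image (j - ·)) := fun p hp => by
      by_contra c
      simp only [mem_insert, mem_union, mem_sdiff, mem_image, mem_Icc, not_or, not_and, not_not,
        not_exists, and_imp] at c hp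
      have e1 := c.2.1 (by omega) (by omega)
      have e2 : j - p ∈ P := by
        by_contra e
        exact c.2.2 (j - p) (by omega) (by omega) e (by ring)
      exact k (mem_rs.2 ⟨_, (hP _).1 e1, _, (hP _).1 e2, fun e => by
        have := mul_left_cancel₀ d0.ne' (add_left_cancel e); omega, by ring⟩)
    have h1 := (card_le_card this).trans ((card_insert_le _ _).trans (Nat.add_le_add_right
      ((card_union_le _ _).trans (Nat.add_le_add_left card_image_le _)) _))
    rw [Int.card_Icc, hh] at h1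
    omega
  refine ⟨a, d, l, h, P, d0, (hP 0).2 (by simpa using ha), hP, p1, p2, by omega, hh, ?_, p5⟩
  have : h ≤ #(rs A \ S) := hh ▸ card_le_card_of_injOn
    (fun p => 2 * a + d * if 2 * h + 1 ≤ p then p else p + l) (fun p hp => by
      obtain ⟨e1, e2⟩ := mem_sdiff.1 (mem_coe.1 hp)
      rw [mem_Icc] at e1
      have e3 : p ≠ l := fun e => e2 ((hP p).2 (e ▸ hb))
      refine mem_coe.2 (mem_sdiff.2 ⟨p5 _ (by split_ifs <;> omega) (by split_ifs <;> omega), fun k => ?_⟩)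
      rcases (s3 _).1 k with ⟨w, c, c', f⟩ | ⟨w, c, -, -, f⟩ <;> obtain ⟨q, q1, rfl⟩ := p1 w c <;>
        have := p2 q q1
      · have e4 : q = if 2 * h + 1 ≤ p then p else p + l := mul_left_cancel₀ d0.ne' (by linarith)
        have e5 : p ≠ 0 := fun e => e2 ((hP p).2 (by simpa [e] using ha))
        split_ifs at e4
        · exact e2 (e4 ▸ q1)
        · omega
      · have e4 : l + q = if 2 * h + 1 ≤ p then p else p + l := mul_left_cancel₀ d0.ne' (by linarith)
        split_ifs at e4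
        · omega
        · exact e2 ((show q = p by omega) ▸ q1)) fun x hx y hy e => by
      have e4 := mul_left_cancel₀ d0.ne' (add_left_cancel e)
      obtain ⟨e1, e2⟩ := mem_sdiff.1 (mem_coe.1 hx)
      obtain ⟨e3, e5⟩ := mem_sdiff.1 (mem_coe.1 hy)
      have : x ≠ 0 := fun e => e2 ((hP x).2 (by simpa [e] using ha))
      have : y ≠ 0 := fun e => e5 ((hP y).2 (by simpa [e] using ha))
      rw [mem_Icc] at e1 e3
      split_ifs at e4 <;> omega
  have := card_sdiff_add_card_eq_card s1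
  omega

end Pool.Agent.H.MP_daf980_lc
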