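import Pool.Agent.H.MP_daf980_lc.A

set_option autoImplicit false

namespace Pool.Agent.H.MP_daf980_lc
open Finset

structure Ctx (L A Z P : Finset ℤ) (a d : ℤ) (l h c : ℕ) : Prop where
  hp : ∀ y ∈ L, 0 < y
  hS : rs A ⊆ L
  iso : ∀ w ∈ L, w ∉ A → w ∉ Z → ∀ y ∈ L, y ≠ w → w + y ∉ L
  dis : Disjoint (rs A) A
  d0 : 0 < d
  aL : a ∈ L
  hP : ∀ p, p ∈ P ↔ a + d * p ∈ A
  p1 : ∀ u ∈ A, ∃ p ∈ P, u = a + d * p
  p2 : ∀ p ∈ P, 0 ≤ p ∧ p ≤ l
  hl : l + 1 = #A + h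
  hh : #(Icc (0 : ℤ) l \ P) = h
  cnt : 2 * #A + h ≤ #(rs A) + 3
  cen : ∀ j : ℤ, 2 * h + 1 ≤ j → j + 2 * h + 1 ≤ 2 * l → 2 * a + d * j ∈ rs A
  ex : #(L \ (A ∪ rs A)) ≤ c
  hc : h ≤ c
  hZ : #Z ≤ c
  big : 10 * c + 10 ≤ l

lemma exists_ctx {L A Z : Finset ℤ} {c : ℕ} (hA : A ⊆ L) (hp : ∀ y ∈ L, 0 < y) (hS : rs A ⊆ L)
    (iso : ∀ w ∈ L, w ∉ A → w ∉ Z → ∀ y ∈ L, y ≠ w → w + y ∉ L) (hZ : #Z ≤ c)
    (hL : #L + 3 ≤ 3 * #A + c) (hn : 16 * c + 30 < #A) : ∃ P a d l h, Ctx L A Z P a d l h c := by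
  have dis := excl hA hp hS iso (by omega)
  have h1 := card_sdiff_add_card_eq_card (union_subset hA hS)
  rw [card_union_of_disjoint dis.symm] at h1
  obtain ⟨a, d, l, h, P, a1, a2, a3, a4, a5, a6, a7, a8, a9⟩ := struct (A := A) (c := c) (by omega) hn
  exact ⟨P, a, d, l, h, hp, hS, iso, dis, a1, hA (by simpa using (a3 0).1 a2), a3, a4, a5, a6, a7, a8,
    a9, by omega, by omega, hZ, by omega⟩

variable {L A Z P : Finset ℤ} {a d : ℤ} {l h c : ℕ}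

lemma Ctx.nod (C : Ctx L A Z P a d l h c) (j : ℤ) (hj : d * j ∈ L) (hb : j + 5 * c + 4 ≤ 2 * l) : False := by
  have j0 : 0 < j := pos_of_mul_pos_left (b := d) (by linarith [C.hp _ hj]) C.d0.le
  have := C.hc
  have := C.hZ
  obtain ⟨w, w1, w2⟩ := exists_mem_notMem_of_card_lt_card (s := insert (d * j) Z)
    (t := (Icc (2 * h + 1 : ℤ) (2 * l - 2 * h - 1 - j)).image fun i => 2 * a + d * i) (by
      rw [card_image_of_injective _ fun x y e => mul_left_cancel₀ C.d0.ne' (add_left_cancel e), Int.card_Icc]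
      have := card_insert_le (d * j) Z
      omega)
  obtain ⟨i, hi, rfl⟩ := mem_image.1 w1
  rw [mem_Icc] at hi
  rw [mem_insert, not_or] at w2
  have e := C.cen i hi.1 (by omega)
  refine C.iso _ (C.hS e) (disjoint_left.1 C.dis e) w2.2 _ hj (Ne.symm w2.1) ?_
  rw [add_assoc, ← mul_add]
  exact C.hS (C.cen _ (by omega) (by omega))

lemma Ctx.rsp (C : Ctx L A Z P a d l h c) {y : ℤ} (hy : y ∈ rs A) :
    ∃ j : ℤ, 0 ≤ j ∧ j ≤ 2 * l ∧ y = 2 * a + d * j := by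
  obtain ⟨u, hu, v, hv, -, rfl⟩ := mem_rs.1 hy
  obtain ⟨p, p1, rfl⟩ := C.p1 u hu
  obtain ⟨q, q1, rfl⟩ := C.p1 v hv
  have := C.p2 p p1
  have := C.p2 q q1
  exact ⟨p + q, by omega, by omega, by ring⟩

lemma Ctx.notA (C : Ctx L A Z P a d l h c) {t p : ℤ} (ht : t ∈ L) (hp : 0 ≤ p) : t + (a + d * p) ∉ A :=
  fun k => by
    obtain ⟨q, q1, e⟩ := C.p1 _ k
    have := C.p2 q q1
    have := C.big
    exact C.nod (q - p) (by rwa [show d * (q - p) = t by linarith]) (by omega)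

lemma Ctx.thr (C : Ctx L A Z P a d l h c) {t : ℤ} (ht : t ∈ L) {F : Finset ℤ}
    (hF : ∀ p, p ∈ F ↔ p ∈ P ∧ t + (a + d * p) ∉ L) (h1 : 4 * c + 2 < #F) (h2 : #F + c < #A) :
    ∃ j, t = a + d * j ∧ j ≤ l + 2 * c + #F ∧
      ((∀ p ∈ F, p ≤ #F + 4 * c) ∨ ∀ p ∈ F, l ≤ p + #F + 4 * c) := by
  obtain ⟨E, e1, e2⟩ : ∃ E : Finset ℤ, #E ≤ c ∧ ∀ p ∈ P, p ∉ F → p ∉ E → t + (a + d * p) ∈ rs A := by
    refine ⟨P.filter fun p => t + (a + d * p) ∈ L \ (A ∪ rs A), le_trans (card_le_card_of_injOn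
      (fun p => t + (a + d * p)) (fun p hp => (mem_filter.1 (mem_coe.1 hp)).2) fun x _ y _ e =>
        mul_left_cancel₀ C.d0.ne' (add_left_cancel (add_left_cancel e))) C.ex, fun p a b c => ?_⟩
    by_contra k
    refine c (mem_filter.2 ⟨a, mem_sdiff.2 ⟨by_contra fun k => b ((hF p).2 ⟨a, k⟩), fun f => ?_⟩⟩)
    exact (mem_union.1 f).elim (C.notA ht (C.p2 p a).1) k
  have hh := C.hh
  have hl := C.hl
  have hc := C.hc
  have big := C.big
  have e3 := card_sdiff_add_card_eq_card (show P ⊆ Icc (0 : ℤ) l from fun p hp => mem_Icc.2 (C.p2 p hp))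
  rw [Int.card_Icc] at e3
  obtain ⟨p, p1, p2⟩ := exists_mem_notMem_of_card_lt_card (s := F ∪ E) (t := P)
    (by have := card_union_le F E; omega)
  rw [mem_union, not_or] at p2
  obtain ⟨i, i1, i2, i3⟩ := C.rsp (e2 p p1 p2.1 p2.2)
  have p3 := C.p2 p p1
  obtain ⟨j, rfl⟩ : ∃ j, i = j + p := ⟨i - p, by ring⟩
  obtain rfl : t = a + d * j := by linarith
  have f1 : ∀ q ∈ F, (0 ≤ q ∧ q ≤ l) ∧ (j + q < 2 * h + 1 ∨ 2 * l < j + q + 2 * h + 1) := fun q hq => by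
    obtain ⟨q1, q2⟩ := (hF q).1 hq
    refine ⟨C.p2 q q1, by_contra fun k => q2 ?_⟩
    rw [show a + d * j + (a + d * q) = 2 * a + d * (j + q) by ring]
    exact C.hS (C.cen _ (by omega) (by omega))
  have f2 : ∀ Q : Finset ℤ, (∀ q ∈ Q, (0 ≤ q ∧ q ≤ l) ∧ (j + q < 0 ∨ 2 * l < j + q)) → #Q ≤ h + c + #F :=
    fun Q hQ => by
      have : Q ⊆ (Icc (0 : ℤ) l \ P) ∪ E ∪ F := fun q hq => by
        by_contra k
        simp only [mem_union, mem_sdiff, mem_Icc, not_or, not_and, not_not] at k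
        obtain ⟨i, i1, i2, i3⟩ := C.rsp (e2 q (k.1.1 (hQ q hq).1) k.2 k.1.2)
        have : i = j + q := mul_left_cancel₀ C.d0.ne' (by linarith)
        have := (hQ q hq).2
        omega
      have h3 := (card_le_card this).trans ((card_union_le _ _).trans
        (Nat.add_le_add_right (card_union_le _ _) _))
      omega
  by_cases c1 : j < 0
  · have := f2 (Ico 0 (-j)) fun q hq => by rw [mem_Ico] at hq; omega
    rw [Int.card_Ico] at this
    exact ⟨j, rfl, by omega, Or.inl fun q hq => by have := f1 q hq; omega⟩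
  by_cases c2 : l < j
  · have := f2 (Ioc (2 * l - j) l) fun q hq => by rw [mem_Ioc] at hq; omega
    rw [Int.card_Ioc] at this
    exact ⟨j, rfl, by omega, Or.inr fun q hq => by have := f1 q hq; omega⟩
  have : F ⊆ Icc (0 : ℤ) (2 * h) ∪ Icc (l - 2 * h : ℤ) l := fun q hq => by
    have := f1 q hq
    simp only [mem_union, mem_Icc]
    omega
  have := (card_le_card this).trans (card_union_le _ _)
  rw [Int.card_Icc, Int.card_Icc] at this
  omega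

lemma Ctx.small (C : Ctx L A Z P a d l h c) {x p : ℤ} {N : Finset ℤ}
    (hN : ∀ q ∈ P, x + (a + d * q) ∈ L → q ∈ N) (h1 : #N ≤ c) (h2 : 4 * c + 1 ≤ p) (h3 : p + 4 * c + 1 ≤ l) :
    x + (a + d * p) ∉ rs A := fun k => by
  obtain ⟨j, j1, j2, j3⟩ := C.rsp k
  have hh := C.hh
  have hc := C.hc
  have big := C.big
  have f : ∀ Q : Finset ℤ, (∀ q ∈ Q, (0 ≤ q ∧ q ≤ l) ∧ 2 * h + 1 ≤ j + q - p ∧
      j + q - p + 2 * h + 1 ≤ 2 * l) → #Q ≤ h + c := fun Q hQ => by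
    have : Q ⊆ (Icc (0 : ℤ) l \ P) ∪ N := fun q hq => by
      by_contra k
      simp only [mem_union, mem_sdiff, mem_Icc, not_or, not_and, not_not] at k
      obtain ⟨a1, a2, a3⟩ := hQ q hq
      exact k.2 (hN q (k.1 a1) (by
        rw [show x + (a + d * q) = 2 * a + d * (j + q - p) by linarith]; exact C.hS (C.cen _ a2 a3)))
    have := (card_le_card this).trans (card_union_le _ _)
    omega
  by_cases c1 : j ≤ l
  · have := f (Icc (p + 2 * h + 1) (p + 3 * h + c + 1)) fun q hq => by rw [mem_Icc] at hq; omega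
    rw [Int.card_Icc] at this
    omega
  · have := f (Icc (p - 3 * h - c - 1) (p - 2 * h - 1)) fun q hq => by rw [mem_Icc] at hq; omega
    rw [Int.card_Icc] at this
    omega

end Pool.Agent.H.MP_daf980_lc
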