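import Pool.Agent.H.MP_daf980_lc.B

set_option autoImplicit false

namespace Pool.Agent.H.MP_daf980_lc
open Finset

theorem geo {n N s R : ℕ} {y : ℕ → ℕ} {w : ℕ → ℕ → ℕ} {k X tl th : ℕ → ℤ} {L T : Finset ℤ}
    (hp : ∀ z ∈ L, 0 < z) (kinj : ∀ i < n, ∀ j < n, k i = k j → i = j) (kL : ∀ i < n, k i ∈ L)
    (XL : ∀ x < N, X x ∈ L) (TL : T ⊆ L) (Tk : ∀ i < n, k i ∉ T) (Tc : #T = 2 * s)
    (Tm : ∀ t, t ∈ T ↔ ∃ i < s, t = tl i ∨ t = th i)
    (cl : ∀ i < n, ∀ j < n, i ≠ j → k i + k j ∈ L)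
    (iso : ∀ z ∈ L, (∀ i < n, z ≠ k i) → (∀ x < N, z ≠ X x) → z ∉ T → ∀ u ∈ L, u ≠ z → z + u ∉ L)
    (aX : ∀ x < N, ∀ j < n, X x + k j ∈ L ↔ ∃ i < s, j = w i x)
    (al : ∀ i < s, ∀ j < n, tl i + k j ∈ L ↔ R * (y i + 1) ≤ j)
    (ah : ∀ i < s, ∀ j < n, th i + k j ∈ L ↔ j < R * y i)
    (hL : #L + 3 ≤ 3 * n + (5 * s + N)) (hw : ∀ i < s, ∀ x < N, R * y i ≤ w i x ∧ w i x < R * (y i + 1))
    (hy : ∀ i < s, 10 ≤ y i ∧ R * (y i + 11) ≤ n) (hR : 20 * (5 * s + N) + 40 ≤ R) (hs : 0 < s)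
    (sid : ∀ i < s, ∀ j < s, ∀ u < s, ∀ v < s, y i + y v < y j + y u + 5 → y j + y u < y i + y v + 5 →
      (i = j ∧ u = v) ∨ (i = u ∧ j = v)) :
    ∃ h : ℕ, (∀ x < N, ∀ x' < N, ∀ i < s, ∀ j < s, ∀ u < s, ∀ v < s, X x + k (w i x) = X x' + k (w j x') →
        X x + k (w u x) = X x' + k (w v x') → (i = u ∧ j = v) ∨ (i = j ∧ u = v)) ∧
      (∀ x < N, ∀ x' < N, ∀ u < s, X x + k (w u x) = X x' + k (w u x') →
        #((range s).filter fun i => X x + k (w i x) ≠ X x' + k (w i x')) ≤ h) ∧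
      ∀ Λ : Finset ℤ, (∀ z ∈ Λ, ∃ x < N, ∃ i < s, z = X x + k (w i x)) → h + #Λ ≤ 3 * s + N := by
  obtain ⟨c, hc⟩ : ∃ c, c = 5 * s + N := ⟨_, rfl⟩
  rw [← hc] at hL hR
  obtain ⟨A, hA⟩ : ∃ A : Finset ℤ, A = (range n).image k := ⟨_, rfl⟩
  have mA : ∀ u, u ∈ A ↔ ∃ i < n, k i = u := by simp [hA]
  have cA : #A = n := by
    rw [hA, card_image_of_injOn fun i hi j hj => kinj i (by simpa using hi) j (by simpa using hj), card_range]
  have AL : A ⊆ L := fun u hu => by obtain ⟨i, a, rfl⟩ := (mA u).1 hu; exact kL i a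
  have y0 := hy 0 hs
  have nR : R * 21 ≤ n := le_trans (Nat.mul_le_mul_left _ (by omega)) y0.2
  obtain ⟨P, a, d, l, h, C⟩ := exists_ctx (Z := T ∪ (range N).image X) (c := c) AL hp
    (fun u hu => by
      obtain ⟨_, a, _, b, e, rfl⟩ := mem_rs.1 hu
      obtain ⟨i, a', rfl⟩ := (mA _).1 a
      obtain ⟨j, b', rfl⟩ := (mA _).1 b
      exact cl i a' j b' fun f => e (f ▸ rfl))
    (fun z a b e => iso z a (fun i hi f => b ((mA _).2 ⟨i, hi, f.symm⟩))
      (fun x hx f => e (mem_union_right _ (mem_image.2 ⟨x, mem_range.2 hx, f.symm⟩)))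
      fun f => e (mem_union_left _ f))
    (by
      have := card_union_le T ((range N).image X)
      have := card_image_le (s := range N) (f := X)
      rw [card_range] at this
      omega) (by omega) (by omega)
  have hl := C.hl
  have hhc := C.hc
  rw [cA] at hl
  have : ∀ i, ∃ p, i < n → p ∈ P ∧ k i = a + d * p := fun i => by
    by_cases e : i < n
    · obtain ⟨p, a, b⟩ := C.p1 _ ((mA _).2 ⟨i, e, rfl⟩)
      exact ⟨p, fun _ => ⟨a, b⟩⟩
    · exact ⟨0, fun f => absurd f e⟩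
  choose π hπ using this
  have pinj : ∀ i < n, ∀ j < n, π i = π j → i = j := fun i hi j hj e =>
    kinj i hi j hj (by rw [(hπ i hi).2, (hπ j hj).2, e])
  have psur : ∀ p ∈ P, ∃ i < n, π i = p := fun p hp => by
    obtain ⟨i, a, b⟩ := (mA _).1 ((C.hP p).1 hp)
    exact ⟨i, a, mul_left_cancel₀ C.d0.ne' (add_left_cancel ((hπ i a).2.symm.trans b))⟩
  have cI : ∀ I : Finset ℕ, (∀ i ∈ I, i < n) → #(I.image π) = #I := fun I hI =>
    card_image_of_injOn fun i hi j hj => pinj i (hI i hi) j (hI j hj)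
  have thr : ∀ t ∈ T, ∀ lo hi : ℕ, hi ≤ n → (∀ j < n, t + k j ∉ L ↔ lo ≤ j ∧ j < hi) → R * 10 + lo ≤ hi →
      hi + R * 10 ≤ n + lo → ∃ j, t = a + d * j ∧ j + R * 10 ≤ 2 * l + 2 * c + 1 ∧
      ((∀ i, lo ≤ i → i < hi → π i + lo ≤ hi + 4 * c) ∨ ∀ i, lo ≤ i → i < hi → l + lo ≤ π i + hi + 4 * c) := by
    intro t ht lo hi h1 h2 h3 h4
    have e := cI (Ico lo hi) fun i hi => by rw [mem_Ico] at hi; omega
    rw [Nat.card_Ico] at e
    obtain ⟨j, j1, j2, j3⟩ := C.thr (TL ht) (F := (Ico lo hi).image π) (fun p => by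
      simp only [mem_image, mem_Ico]
      constructor
      · rintro ⟨i, hi, rfl⟩
        exact ⟨(hπ i (by omega)).1, (hπ i (by omega)).2 ▸ (h2 i (by omega)).2 hi⟩
      · rintro ⟨a, b⟩
        obtain ⟨i, hi, rfl⟩ := psur p a
        exact ⟨i, (h2 i hi).1 ((hπ i hi).2 ▸ b), rfl⟩) (by omega) (by omega)
    rw [e] at j2 j3
    refine ⟨j, j1, by omega, j3.imp (fun f i a b => ?_) fun f i a b => ?_⟩ <;>
      have := f _ (mem_image_of_mem _ (mem_Ico.2 ⟨a, b⟩)) <;> omega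
  have yb : ∀ i < s, R * 10 ≤ R * y i ∧ R * y i + R * 11 ≤ n ∧ R * (y i + 1) = R * y i + R := fun i hi =>
    ⟨Nat.mul_le_mul_left _ (hy i hi).1, by rw [← mul_add]; exact (hy i hi).2, by ring⟩
  have t1 := fun i (hi : i < s) => thr (tl i) ((Tm _).2 ⟨i, hi, Or.inl rfl⟩) 0 (R * y i + R)
    (by have := yb i hi; omega) (fun j hj => by rw [al i hi j hj]; have := yb i hi; omega)
    (by have := yb i hi; omega) (by have := yb i hi; omega)
  have t2 := fun i (hi : i < s) => thr (th i) ((Tm _).2 ⟨i, hi, Or.inr rfl⟩) (R * y i) n le_rfl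
    (fun j hj => by rw [ah i hi j hj]; omega) (by have := yb i hi; omega) (by have := yb i hi; omega)
  have t3 : ∀ t ∈ T, ∃ j, t = a + d * j ∧ j + R * 10 ≤ 2 * l + 2 * c + 1 := fun t ht => by
    obtain ⟨i, hi, rfl | rfl⟩ := (Tm t).1 ht
    · exact (t1 i hi).imp fun j f => ⟨f.1, f.2.1⟩
    · exact (t2 i hi).imp fun j f => ⟨f.1, f.2.1⟩
  have sq : ∀ (u v : ℕ) (lo hi : ℤ), u ≤ v → v ≤ n → lo ≤ hi + 1 →
      (∀ i < n, i < u ∨ v ≤ i → lo ≤ π i ∧ π i ≤ hi) → u + n + lo ≤ v + hi + 1 := fun u v lo hi a b b' f => by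
    have e := cI (range u ∪ Ico v n) fun i hi => by simp only [mem_union, mem_range, mem_Ico] at hi; omega
    rw [card_union_of_disjoint (by simp only [disjoint_left, mem_range, mem_Ico]; omega), card_range,
      Nat.card_Ico] at e
    have := card_le_card (show (range u ∪ Ico v n).image π ⊆ Icc lo hi from fun p hp => by
      obtain ⟨i, hi, rfl⟩ := mem_image.1 hp
      simp only [mem_union, mem_range, mem_Ico] at hi
      exact mem_Icc.2 (f i (by omega) (by omega)))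
    rw [Int.card_Icc] at this
    omega
  have pb : ∀ i < n, 0 ≤ π i ∧ π i ≤ l := fun i hi => C.p2 _ (hπ i hi).1
  have o1 : ∀ i < s, ∀ j < s, ¬ ((∀ u, 0 ≤ u → u < R * y i + R → π u + (0 : ℕ) ≤ (R * y i + R : ℕ) + 4 * c) ∧
      ∀ u, R * y j ≤ u → u < n → π u + (R * y j : ℕ) ≤ n + 4 * c) := fun i hi j hj ⟨f, g⟩ => by
    have := yb i hi
    have := yb j hj
    by_cases e : n ≤ R * y i + R + R * y j
    · have := sq (R * y i + R) (n - R * 10) 0 ((R * y i + R : ℕ) + 4 * c) (by omega) (by omega) (by omega)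
        fun u a b => ⟨(pb u a).1, by
          rcases b with b | b
          · have := f u (by omega) b; omega
          · have := g u (by omega) a; omega⟩
      omega
    · have := sq (R * 10) (R * y j) 0 (n + 4 * c - (R * y j : ℕ)) (by omega) (by omega) (by omega)
        fun u a b => ⟨(pb u a).1, by
          rcases b with b | b
          · have := f u (by omega) (by omega); omega
          · have := g u b a; omega⟩
      omega
  have o2 : ∀ i < s, ∀ j < s, ¬ ((∀ u, 0 ≤ u → u < R * y i + R → l + (0 : ℕ) ≤ π u + (R * y i + R : ℕ) + 4 * c) ∧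
      ∀ u, R * y j ≤ u → u < n → l + (R * y j : ℕ) ≤ π u + n + 4 * c) := fun i hi j hj ⟨f, g⟩ => by
    have := yb i hi
    have := yb j hj
    by_cases e : n ≤ R * y i + R + R * y j
    · have := sq (R * y i + R) (n - R * 10) (l - (R * y i + R : ℕ) - 4 * c) l (by omega) (by omega) (by omega)
        fun u a b => ⟨by
          rcases b with b | b
          · have := f u (by omega) b; omega
          · have := g u (by omega) a; omega, (pb u a).2⟩
      omega
    · have := sq (R * 10) (R * y j) (l + (R * y j : ℕ) - n - 4 * c) l (by omega) (by omega) (by omega)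
        fun u a b => ⟨by
          rcases b with b | b
          · have := f u (by omega) (by omega); omega
          · have := g u b a; omega, (pb u a).2⟩
      omega
  have wn : ∀ i < s, ∀ x < N, w i x < n := fun i hi x hx => by have := hw i hi x hx; have := yb i hi; omega
  have ori : (∀ i < s, ∀ x < N, π (w i x) ≤ (R * y i : ℕ) + R + 4 * c ∧ (R * y i : ℕ) ≤ π (w i x) + 4 * c + 1) ∨
      ∀ i < s, ∀ x < N, l ≤ π (w i x) + (R * y i : ℕ) + R + 4 * c ∧
        π (w i x) + (R * y i : ℕ) ≤ l + 4 * c + 1 := by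
    obtain ⟨_, -, -, f | f⟩ := t1 0 hs
    · have g := fun j hj => (t2 j hj).choose_spec.2.2.resolve_left fun g => o1 0 hs j hj ⟨f, g⟩
      refine Or.inl fun i hi x hx => ?_
      have := hw i hi x hx
      have := yb i hi
      have := (t1 i hi).choose_spec.2.2.resolve_right (fun f => o2 i hi 0 hs ⟨f, g 0 hs⟩) (w i x)
        (by omega) (by omega)
      have := g i hi (w i x) (by omega) (by omega)
      omega
    · have g := fun j hj => (t2 j hj).choose_spec.2.2.resolve_right fun g => o2 0 hs j hj ⟨f, g⟩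
      refine Or.inr fun i hi x hx => ?_
      have := hw i hi x hx
      have := yb i hi
      have := (t1 i hi).choose_spec.2.2.resolve_left (fun f => o1 i hi 0 hs ⟨f, g 0 hs⟩) (w i x)
        (by omega) (by omega)
      have := g i hi (w i x) (by omega) (by omega)
      omega
  have cen : ∀ i < s, ∀ x < N, R * 8 ≤ π (w i x) ∧ π (w i x) + R * 8 ≤ l := fun i hi x hx => by
    have := yb i hi
    rcases ori with f | f <;> have := f i hi x hx <;> omega
  have near : ∀ i < s, ∀ x < N, ∀ x' < N, π (w i x) ≤ π (w i x') + R * 2 := fun i hi x hx x' hx' => by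
    rcases ori with f | f <;> have := f i hi x hx <;> have := f i hi x' hx' <;> omega
  have kw : ∀ i < s, ∀ x < N, k (w i x) = a + d * π (w i x) := fun i hi x hx => (hπ _ (wn i hi x hx)).2
  have P1 : ∀ x < N, ∀ x' < N, ∀ i < s, ∀ j < s, ∀ u < s, ∀ v < s, X x + k (w i x) = X x' + k (w j x') →
      X x + k (w u x) = X x' + k (w v x') → (i = u ∧ j = v) ∨ (i = j ∧ u = v) := by
    intro x hx x' hx' i hi j hj u hu v hv e1 e2
    rw [kw i hi x hx, kw j hj x' hx'] at e1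
    rw [kw u hu x hx, kw v hv x' hx'] at e2
    have e : π (w i x) + π (w v x') = π (w j x') + π (w u x) := mul_left_cancel₀ C.d0.ne' (by linarith)
    refine (sid i hi j hj u hu v hv ?_ ?_).symm <;> refine Nat.lt_of_mul_lt_mul_left (a := R) ?_ <;>
      simp only [mul_add] <;> rcases ori with f | f <;> have := f i hi x hx <;> have := f j hj x' hx' <;>
      have := f u hu x hx <;> have := f v hv x' hx' <;> omega
  have nb : ∀ x < N, ∀ q ∈ P, X x + (a + d * q) ∈ L → ∃ i < s, q = π (w i x) := fun x hx q hq f => by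
    obtain ⟨j, hj, rfl⟩ := psur q hq
    obtain ⟨i, hi, rfl⟩ := (aX x hx j hj).1 ((hπ j hj).2 ▸ f)
    exact ⟨i, hi, rfl⟩
  have lamL : ∀ x < N, ∀ i < s, X x + k (w i x) ∈ L := fun x hx i hi =>
    (aX x hx _ (wn i hi x hx)).2 ⟨i, hi, rfl⟩
  refine ⟨h, P1, fun x hx x' hx' u hu e => ?_, fun Λ hΛ => ?_⟩
  · refine C.hh ▸ card_le_card_of_injOn (fun i => π (w i x) + π (w u x') - π (w u x)) (fun i hi => ?_)
      fun i hi j hj f => ?_
    · obtain ⟨i1, i2⟩ := mem_filter.1 (mem_coe.1 hi)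
      rw [mem_range] at i1
      have := cen i i1 x hx
      have := near u hu x hx x' hx'
      have := near u hu x' hx' x hx
      refine mem_coe.2 (mem_sdiff.2 ⟨mem_Icc.2 (by simp only; omega), fun f => ?_⟩)
      have e1 : X x' + (a + d * (π (w i x) + π (w u x') - π (w u x))) = X x + k (w i x) := by
        rw [kw u hu x hx, kw u hu x' hx'] at e
        rw [kw i i1 x hx]
        linarith
      obtain ⟨j, hj, g⟩ := nb x' hx' _ f (e1 ▸ lamL x hx i i1)
      simp only at g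
      rw [g, ← kw j hj x' hx'] at e1
      rcases P1 x hx x' hx' i i1 j hj u hu u hu e1.symm e with ⟨rfl, rfl⟩ | ⟨rfl, -⟩ <;> exact i2 e1.symm
    · have i1 := mem_range.1 (mem_filter.1 (mem_coe.1 hi)).1
      have j1 := mem_range.1 (mem_filter.1 (mem_coe.1 hj)).1
      have := pinj _ (wn i i1 x hx) _ (wn j j1 x hx) (by simp only at f; omega)
      rcases P1 x hx x hx i i1 j j1 i i1 i i1 (by rw [this]) rfl with ⟨-, g⟩ | ⟨g, -⟩ <;> omega
  · have d1 : Disjoint A T := disjoint_left.2 fun u hu => by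
      obtain ⟨i, a, rfl⟩ := (mA u).1 hu; exact Tk i a
    have d2 : ∀ z ∈ Λ, z ∈ L ∧ z ∉ A ∧ z ∉ T ∧ z ∉ rs A := fun z hz => by
      obtain ⟨x, hx, i, hi, rfl⟩ := hΛ z hz
      have := cen i hi x hx
      refine ⟨lamL x hx i hi, ?_⟩
      rw [kw i hi x hx]
      refine ⟨C.notA (XL x hx) (by omega), fun f => ?_, C.small (N := (range s).image fun i => π (w i x))
        (fun q a b => ?_) (card_image_le.trans (by rw [card_range]; omega)) (by omega) (by omega)⟩
      · obtain ⟨j, j1, j2⟩ := t3 _ f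
        exact C.nod (j - π (w i x)) (by rw [show d * (j - π (w i x)) = X x by linarith]; exact XL x hx)
          (by omega)
      · obtain ⟨j, hj, rfl⟩ := nb x hx q a b
        exact mem_image.2 ⟨j, mem_range.2 hj, rfl⟩
    have d3 : rs A ∪ Λ ⊆ L \ (A ∪ T) := fun z hz => by
      rw [mem_sdiff, mem_union, not_or]
      rcases mem_union.1 hz with f | f
      · refine ⟨C.hS f, disjoint_left.1 C.dis f, fun g => ?_⟩
        obtain ⟨j, j1, j2⟩ := t3 _ g
        obtain ⟨i, i1, -, i2⟩ := C.rsp f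
        exact C.nod (j - i) (by rw [show d * (j - i) = a by linarith]; exact C.aL) (by omega)
      · exact ⟨(d2 z f).1, (d2 z f).2.1, (d2 z f).2.2.1⟩
    have d4 := card_le_card d3
    have d5 := card_sdiff_add_card_eq_card (union_subset AL TL)
    rw [card_union_of_disjoint (disjoint_right.2 fun z hz => (d2 z hz).2.2.2)] at d4
    rw [card_union_of_disjoint d1] at d5
    have := C.cnt
    omega

lemma card_u {A B : Finset ℤ} {k : ℕ} (h : #(A ∩ B) ≤ k) : #A + #B ≤ #(A ∪ B) + k := by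
  have := card_union_add_card_inter A B; omega

lemma inter_u {A B C : Finset ℤ} {k j : ℕ} (h : #(A ∩ C) ≤ k) (h' : #(B ∩ C) ≤ j) :
    #((A ∪ B) ∩ C) ≤ k + j := by
  rw [union_inter_distrib_right]; exact (card_union_le _ _).trans (add_le_add h h')

theorem comb {N s h b : ℕ} {f : ℕ → ℕ → ℤ} (hN : 3 ≤ N) (hb : b ≤ s) (hs : 4 * b + N + 6 < s)
    (P1 : ∀ x < N, ∀ x' < N, ∀ i < s, ∀ j < s, ∀ u < s, ∀ v < s, f x i = f x' j → f x u = f x' v →
      (i = u ∧ j = v) ∨ (i = j ∧ u = v))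
    (P3 : ∀ x < N, ∀ x' < N, ∀ u < s, f x u = f x' u → #((range s).filter fun i => f x i ≠ f x' i) ≤ h)
    (P5 : ∀ Λ : Finset ℤ, (∀ z ∈ Λ, ∃ x < N, ∃ i < s, z = f x i) → h + #Λ ≤ 3 * s + N)
    (P4 : ∀ x < 3, ∀ x' < 3, x ≠ x' → ∀ i, b ≤ i → i < s → f x i ≠ f x' i) :
    ∃ col : ℕ → Fin 3, ∀ x < N, ∀ x' < N, col x = col x' →
      #((range s).filter fun i => f x i ≠ f x' i) ≤ 2 * N + 6 := by
  have cI : ∀ x < N, ∀ I ⊆ range s, #(I.image (f x)) = #I := fun x hx I hI =>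
    card_image_of_injOn fun i hi j hj e => by
      have i1 := mem_range.1 (hI hi)
      rcases P1 x hx x hx i i1 j (mem_range.1 (hI hj)) i i1 i i1 e rfl with ⟨-, g⟩ | ⟨g, -⟩ <;> omega
  have c1 : ∀ x < N, ∀ x' < N, ∀ I ⊆ range s, (∀ i ∈ I, f x i ≠ f x' i) →
      #(I.image (f x) ∩ I.image (f x')) ≤ 1 := fun x hx x' hx' I hI k => card_le_one.2 fun z hz z' hz' => by
    simp only [mem_inter, mem_image] at hz hz'
    obtain ⟨⟨i, i1, rfl⟩, j, j1, e1⟩ := hz
    obtain ⟨⟨u, u1, rfl⟩, v, v1, e2⟩ := hz'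
    rcases P1 x hx x' hx' i (mem_range.1 (hI i1)) j (mem_range.1 (hI j1)) u (mem_range.1 (hI u1)) v
      (mem_range.1 (hI v1)) e1.symm e2.symm with ⟨rfl, -⟩ | ⟨rfl, -⟩
    · rfl
    · exact absurd e1.symm (k i i1)
  have m : ∀ x < N, ∀ I ⊆ range s, ∀ z ∈ I.image (f x), ∃ x < N, ∃ i < s, z = f x i := fun x hx I hI z hz => by
    obtain ⟨i, i1, rfl⟩ := mem_image.1 hz
    exact ⟨x, hx, i, mem_range.1 (hI i1), rfl⟩
  have n0 : 0 < N := by omega
  have n1 : 1 < N := by omega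
  have n2 : 2 < N := by omega
  have u3 : ∀ I ⊆ range s, (∀ x < 3, ∀ x' < 3, x ≠ x' → ∀ i ∈ I, f x i ≠ f x' i) →
      3 * #I ≤ #(I.image (f 0) ∪ I.image (f 1) ∪ I.image (f 2)) + 3 := fun I hI k => by
    have a1 := card_u (c1 0 n0 1 n1 I hI (k 0 (by omega) 1 (by omega) (by omega)))
    have a2 := card_u (inter_u (c1 0 n0 2 n2 I hI (k 0 (by omega) 2 (by omega) (by omega)))
      (c1 1 n1 2 n2 I hI (k 1 (by omega) 2 (by omega) (by omega))))
    rw [cI _ n0 I hI, cI _ n1 I hI] at a1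
    rw [cI _ n2 I hI] at a2
    omega
  have m3 : ∀ I ⊆ range s, ∀ z ∈ I.image (f 0) ∪ I.image (f 1) ∪ I.image (f 2),
      ∃ x < N, ∃ i < s, z = f x i := fun I hI z hz => by
    simp only [mem_union] at hz
    rcases hz with (e | e) | e
    exacts [m 0 n0 I hI z e, m 1 n1 I hI z e, m 2 n2 I hI z e]
  have sb : Ico b s ⊆ range s := fun i hi => mem_range.2 (mem_Ico.1 hi).2
  have a1 := u3 _ sb fun x hx x' hx' e i hi => P4 x hx x' hx' e i (mem_Ico.1 hi).1 (mem_Ico.1 hi).2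
  have a2 := P5 _ (m3 _ sb)
  rw [Nat.card_Ico] at a1
  have a3 : ∀ x < 3, ∀ x' < 3, x ≠ x' → ∀ i ∈ range s, f x i ≠ f x' i := fun x hx x' hx' e i hi g => by
    have := P3 x (by omega) x' (by omega) i (mem_range.1 hi) g
    have a4 := card_le_card (show Ico b s ⊆ (range s).filter fun i => f x i ≠ f x' i from fun i hi =>
      mem_filter.2 ⟨sb hi, P4 x hx x' hx' e i (mem_Ico.1 hi).1 (mem_Ico.1 hi).2⟩)
    rw [Nat.card_Ico] at a4
    omega
  have a4 := u3 _ Subset.rfl a3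
  have a5 := P5 _ (m3 _ Subset.rfl)
  rw [card_range] at a4
  have : ∀ x, ∃ q : Fin 3, x < N → ∃ u < s, f x u = f q u := fun x => by
    by_contra k
    push Not at k
    have hx := (k 0).1
    have g : ∀ q : Fin 3, #((range s).image (f q) ∩ (range s).image (f x)) ≤ 1 := fun q =>
      c1 q (by omega) x hx _ Subset.rfl fun i hi => ((k q).2 i (mem_range.1 hi)).symm
    have a6 := card_u (inter_u (inter_u (g 0) (g 1)) (g 2))
    have a7 := P5 (image (f 0) (range s) ∪ image (f 1) (range s) ∪ image (f 2) (range s) ∪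
      image (f x) (range s)) fun z hz => (mem_union.1 hz).elim (m3 _ Subset.rfl z) (m x hx _ Subset.rfl z)
    rw [cI x hx _ Subset.rfl, card_range] at a6
    simp only [Fin.val_zero, Fin.val_one, Fin.val_two] at a6
    omega
  choose col hcol using this
  refine ⟨col, fun x hx x' hx' e => ?_⟩
  obtain ⟨u, u1, u2⟩ := hcol x hx
  obtain ⟨v, v1, v2⟩ := hcol x' hx'
  rw [← e] at v2
  have b1 := P3 x hx (col x) (by omega) u u1 u2
  have b2 := P3 x' hx' (col x) (by omega) v v1 v2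
  refine le_trans (card_le_card (t := ((range s).filter fun i => f x i ≠ f (col x) i) ∪
    (range s).filter fun i => f x' i ≠ f (col x) i) fun i hi => ?_) ((card_union_le _ _).trans (by omega))
  simp only [mem_union, mem_filter] at hi ⊢
  by_contra k
  push Not at k
  exact hi.2 ((k.1 hi.1).trans (k.2 hi.1).symm)

end Pool.Agent.H.MP_daf980_lc
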