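import Pool.Agent.H.MP_daf980_lc.C

set_option autoImplicit false

namespace Pool.Agent.H.MP_daf980_lc
open Finset

def sd (K i : ℕ) : ℕ := 2 * K * K * i + i * i

lemma dm {U x y a b : ℕ} (ha : a < U) (hb : b < U) (e : U * x + a = U * y + b) : x = y ∧ a = b := by
  have h1 := congrArg (· / U) e
  have h2 := congrArg (· % U) e
  simp only [Nat.mul_add_div (show 0 < U by omega), Nat.div_eq_of_lt ha, Nat.div_eq_of_lt hb,
    Nat.mul_add_mod, Nat.mod_eq_of_lt ha, Nat.mod_eq_of_lt hb] at h1 h2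
  exact ⟨h1, h2⟩

lemma sidon {K i j u v : ℕ} (hi : i < K) (hj : j < K) (hu : u < K) (hv : v < K)
    (e : sd K i + sd K v = sd K j + sd K u) : (i = j ∧ u = v) ∨ (i = u ∧ j = v) := by
  obtain ⟨h1, h2⟩ := dm (U := 2 * K * K) (x := i + v) (y := j + u) (a := i * i + v * v) (b := j * j + u * u)
    (by nlinarith) (by nlinarith) (by unfold sd at e; linarith)
  have : ((i : ℤ) - j) * (i - u) = 0 := by
    zify at h1 h2
    have : (v : ℤ) = j + u - i := by omega
    rw [this] at h2
    linarith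
  rcases mul_eq_zero.1 this with h | h <;> omega

lemma sd_lt {K i : ℕ} (hi : i < K) : sd K i < 3 * K * K * K := by
  unfold sd
  have : i * i < K * K := Nat.mul_lt_mul'' hi hi
  have : K * K * i ≤ K * K * K := Nat.mul_le_mul_left _ hi.le
  have : K * K * 1 ≤ K * K * K := Nat.mul_le_mul_left _ (by omega)
  nlinarith

lemma sd_inj {K i j : ℕ} (hi : i < K) (hj : j < K) (e : sd K i = sd K j) : i = j := by
  rcases sidon hi hj hi hi (by rw [e]) with h | h <;> omega

lemma of_pairs {V : Type} [Finite V] (H : SimpleGraph V) (f : V → ℕ × ℕ) (inj : Function.Injective f)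
    (pos : ∀ v, 0 < (f v).1) (h : ∀ u v, u ≠ v → (H.Adj u v ↔ ∃ w, f u + f v = f w)) :
    ∃ g : V → ℕ, Function.Injective g ∧ (∀ v, 0 < g v) ∧
      ∀ u v, u ≠ v → (H.Adj u v ↔ ∃ w, g u + g v = g w) := by
  obtain ⟨M, hM⟩ := Finite.exists_le fun v => (f v).2
  refine ⟨fun v => (2 * M + 1) * (f v).1 + (f v).2, fun u v e => inj ?_,
    fun v => by have := pos v; positivity, fun u v e => (h u v e).trans (exists_congr fun w => ?_)⟩
  · exact Prod.ext_iff.2 (dm (by have := hM u; omega) (by have := hM v; omega) e)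
  · refine ⟨fun k => by simp only; rw [← k, Prod.fst_add, Prod.snd_add]; ring, fun k => Prod.ext_iff.2 ?_⟩
    exact dm (U := 2 * M + 1) (by have := hM u; have := hM v; simp; omega) (by have := hM w; omega)
      (by simp only at k; rw [← k, Prod.fst_add, Prod.snd_add]; ring)

lemma place {N s R n : ℕ} {y : ℕ → ℕ} {Q : ℕ → ℕ → Prop} [∀ i x, Decidable (Q i x)] {col : ℕ → ℕ}
    (hN : 0 < N) (hR : 15 * N * N * N ≤ R) (hn : R ∣ n) (yi : ∀ i < s, ∀ j < s, y i = y j → i = j)
    (hc : ∀ x, col x < 3) (hQ : ∀ i < s, ∀ x < N, ∀ x' < N, Q i x → Q i x' → col x = col x' → x = x') :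
    ∃ π : ℕ → ℕ, ∃ S : ℕ → ℕ → ℕ, (∀ i j, π i = π j → i = j) ∧ (∀ i < n, π i < n) ∧
      (∀ i m, π i < R * m ↔ i < R * m) ∧ (∀ c < 3, ∀ i, S c i < R) ∧
      ∀ i < s, ∀ x < N, π (R * y i + if Q i x then 0 else x + 1) = R * y i + S (col x) i + sd N x := by
  classical
  obtain ⟨T, hT⟩ : ∃ T, T = 3 * N * N * N := ⟨_, rfl⟩
  have tl : ∀ x < N, sd N x < T := fun x hx => hT ▸ sd_lt hx
  have RT : 5 * T ≤ R := by rw [hT]; linarith
  have NT : N < T := by rw [hT]; nlinarith [Nat.mul_pos hN hN]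
  have : ∀ c i, ∃ o, (∃ q < N, Q i q ∧ col q = c ∧ o + sd N q = T) ∨
      (o = (c + 2) * T ∧ ∀ q < N, Q i q → col q ≠ c) := fun c i => by
    by_cases e : ∃ q < N, Q i q ∧ col q = c
    · obtain ⟨q, a, b, d⟩ := e
      exact ⟨T - sd N q, Or.inl ⟨q, a, b, d, by have := tl q a; omega⟩⟩
    · exact ⟨_, Or.inr ⟨rfl, by simpa using e⟩⟩
  choose S hS using this
  have c3 : ∀ c < 3, (c + 2) * T = 2 * T ∨ (c + 2) * T = 3 * T ∨ (c + 2) * T = 4 * T := fun c hc => by
    interval_cases c <;> simp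
  have SR : ∀ c < 3, ∀ i, S c i ≤ 4 * T := fun c hc i => by
    have := c3 c hc
    rcases hS c i with ⟨q, -, -, -, e⟩ | ⟨e, -⟩ <;> omega
  have : ∀ m, ∃ τ : Fin R ≃ range R, ∀ i < s, y i = m → ∀ x < N, ∀ j : Fin R,
      (j : ℕ) = (if Q i x then 0 else x + 1) → (τ j : ℕ) = S (col x) i + sd N x := fun m => by
    by_cases e : ∃ i < s, y i = m
    swap
    · exact ⟨Fintype.equivOfCardEq (by simp), fun i a b => absurd ⟨i, a, b⟩ e⟩
    obtain ⟨i, hi, rfl⟩ := e
    have a1 : ∀ x < N, S (col x) i + sd N x = T ↔ Q i x := fun x hx => by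
      have := c3 _ (hc x)
      rcases hS (col x) i with ⟨q, a, b, d, e⟩ | ⟨e, f⟩
      · exact ⟨fun k => sd_inj a hx (by omega) ▸ b, fun k => hQ i hi q a x hx b k d ▸ e⟩
      · exact ⟨fun k => by omega, fun k => absurd rfl (f x hx k)⟩
    have a2 : ∀ x < N, ∀ x' < N, S (col x) i + sd N x = S (col x') i + sd N x' → x = x' ∨ Q i x := by
      intro x hx x' hx' k
      have := c3 _ (hc x)
      have := c3 _ (hc x')
      have := tl x hx
      have := tl x' hx'
      by_cases g : col x = col x'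
      · exact Or.inl (sd_inj hx hx' (by rw [g] at k; omega))
      rcases hS (col x) i with ⟨q, a, b, d, e⟩ | ⟨e, f⟩ <;>
        rcases hS (col x') i with ⟨q', a', b', d', e'⟩ | ⟨e', f'⟩
      · rcases sidon hx hx' a a' (by omega) with h | h
        · exact Or.inl h.1
        · exact Or.inr (h.1 ▸ b)
      · omega
      · omega
      · have := (dm (U := T) (x := col x + 2) (y := col x' + 2) (tl x hx) (tl x' hx') (by linarith)).1
        omega
    obtain ⟨τ, hτ⟩ := exists_equiv_extend_of_card_eq (α := Fin R) (t := range R) (by simp)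
      (s := univ.filter fun j => j.1 = 0 ∨ j.1 - 1 < N ∧ ¬ Q i (j.1 - 1))
      (f := fun j => if j.1 = 0 then T else S (col (j.1 - 1)) i + sd N (j.1 - 1)) (fun z hz => by
        obtain ⟨j, hj, rfl⟩ := mem_image.1 hz
        rw [mem_range]
        split_ifs with g
        · omega
        · have := tl _ ((mem_filter.1 hj).2.resolve_left g).1
          have := SR _ (hc (j.1 - 1)) i
          omega) fun u hu v hv g => by
        have hu := (mem_filter.1 (mem_coe.1 hu)).2
        have hv := (mem_filter.1 (mem_coe.1 hv)).2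
        simp only at g
        refine Fin.ext ?_
        split_ifs at g with g1 g2 g2
        · omega
        · exact absurd ((a1 _ (hv.resolve_left g2).1).1 g.symm) (hv.resolve_left g2).2
        · exact absurd ((a1 _ (hu.resolve_left g1).1).1 g) (hu.resolve_left g1).2
        · have := (a2 _ (hu.resolve_left g1).1 _ (hv.resolve_left g2).1 g).resolve_right
            (hu.resolve_left g1).2
          omega
    refine ⟨τ, fun i' hi' e x hx j hj => ?_⟩
    obtain rfl := yi i' hi' i hi e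
    split_ifs at hj with g
    · rw [hτ j (by simp [hj]), if_pos hj, (a1 x hx).2 g]
    · rw [hτ j (by simp [hj, hx, g]), if_neg (by omega), hj, Nat.add_sub_cancel]
  choose τ hτ using this
  have R0 : 0 < R := by omega
  have lt : ∀ m j, (τ m j : ℕ) < R := fun m j => mem_range.1 (τ m j).2
  have dv : ∀ i m, R * (i / R) + (τ (i / R) ⟨i % R, Nat.mod_lt _ R0⟩ : ℕ) < R * m ↔ i < R * m := fun i m => by
    rw [mul_comm R m, ← Nat.div_lt_iff_lt_mul R0, ← Nat.div_lt_iff_lt_mul R0, Nat.mul_add_div R0,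
      Nat.div_eq_of_lt (lt _ _), add_zero]
  refine ⟨fun i => R * (i / R) + τ (i / R) ⟨i % R, Nat.mod_lt _ R0⟩, S, fun i j e => ?_, fun i hi => ?_, dv,
    fun c hc i => by have := SR c hc i; omega, fun i hi x hx => ?_⟩
  · obtain ⟨a, b⟩ := dm (lt _ _) (lt _ _) e
    rw [a] at b
    have := congrArg Fin.val ((τ _).injective (Subtype.ext b))
    rw [← Nat.div_add_mod i R, ← Nat.div_add_mod j R, a]
    exact congrArg _ this
  · obtain ⟨m, rfl⟩ := hn
    exact (dv i m).2 hi
  · have e : (if Q i x then 0 else x + 1) < R := by split_ifs <;> omega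
    have e1 : (R * y i + if Q i x then 0 else x + 1) / R = y i := by
      rw [Nat.mul_add_div R0, Nat.div_eq_of_lt e, add_zero]
    simp only [e1]
    rw [hτ _ i hi rfl x hx _ (by simp [Nat.mod_eq_of_lt e]), add_assoc]

def adj0 (n N s R : ℕ) (y : ℕ → ℕ) (w : ℕ → ℕ → ℕ) (u v : ℕ) : Prop :=
  (u < n ∧ v < n) ∨ (u < n ∧ n ≤ v ∧ v < n + N ∧ ∃ i < s, u = w i (v - n)) ∨
    (u < n ∧ n + N ≤ v ∧ v < n + N + s ∧ R * (y (v - (n + N)) + 1) ≤ u) ∨
    (u < n ∧ n + N + s ≤ v ∧ u < R * y (v - (n + N + s))) ∨ (n + N ≤ u ∧ u < n + N + s ∧ n + N + s ≤ v)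

section
variable {n N s R : ℕ} {y : ℕ → ℕ} {w : ℕ → ℕ → ℕ} {u x i : ℕ}

lemma aKX (hu : u < n) (hx : x < N) : adj0 n N s R y w u (n + x) ∨ adj0 n N s R y w (n + x) u ↔
    ∃ i < s, u = w i x := by
  unfold adj0
  rw [Nat.add_sub_cancel_left]
  refine ⟨?_, fun h => Or.inl (Or.inr (Or.inl ⟨hu, by omega, by omega, h⟩))⟩
  rintro ((e | e | e | e | e) | e | e | e | e | e)
  any_goals omega
  exact e.2.2.2

lemma aKl (hu : u < n) (hi : i < s) : adj0 n N s R y w u (n + N + i) ∨ adj0 n N s R y w (n + N + i) u ↔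
    R * (y i + 1) ≤ u := by
  unfold adj0
  rw [Nat.add_sub_cancel_left]
  refine ⟨?_, fun h => Or.inl (Or.inr (Or.inr (Or.inl ⟨hu, by omega, by omega, h⟩)))⟩
  rintro ((e | e | e | e | e) | e | e | e | e | e) <;> omega

lemma aKh (hu : u < n) : adj0 n N s R y w u (n + N + s + i) ∨ adj0 n N s R y w (n + N + s + i) u ↔
    u < R * y i := by
  unfold adj0
  rw [Nat.add_sub_cancel_left]
  refine ⟨?_, fun h => Or.inl (Or.inr (Or.inr (Or.inr (Or.inl ⟨hu, by omega, h⟩))))⟩
  rintro ((e | e | e | e | e) | e | e | e | e | e) <;> omega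

lemma aO {v : ℕ} (hu : n ≤ u) (hv : u < v) : adj0 n N s R y w u v ∨ adj0 n N s R y w v u ↔
    n + N ≤ u ∧ u < n + N + s ∧ n + N + s ≤ v := by
  unfold adj0
  refine ⟨?_, fun h => Or.inl (Or.inr (Or.inr (Or.inr (Or.inr h))))⟩
  rintro ((e | e | e | e | e) | e | e | e | e | e) <;> omega
end

theorem yes {n N s R T : ℕ} {y : ℕ → ℕ} {w : ℕ → ℕ → ℕ} {col π t : ℕ → ℕ} {S : ℕ → ℕ → ℕ}
    (G : SimpleGraph (Fin (n + N + s + s)))
    (hG : ∀ u v, G.Adj u v ↔ u ≠ v ∧ (adj0 n N s R y w u v ∨ adj0 n N s R y w v u))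
    (hc : ∀ x, col x < 3) (pi : ∀ i j, π i = π j → i = j) (pn : ∀ i < n, π i < n)
    (pm : ∀ i m, π i < R * m ↔ i < R * m) (SR : ∀ c < 3, ∀ i, S c i < R)
    (pw : ∀ i < s, ∀ x < N, π (w i x) = R * y i + S (col x) i + t x)
    (tT : ∀ x < N, t x < T) (ti : ∀ x < N, ∀ x' < N, t x = t x' → x = x')
    (yi : ∀ i < s, ∀ j < s, y i = y j → i = j) (hy : ∀ i < s, 10 ≤ y i ∧ R * (y i + 11) ≤ n) (hR : 0 < R)
    (wn : ∀ i < s, ∀ x < N, w i x < n) (n2 : 2 ≤ n) :
    ∃ g : Fin (n + N + s + s) ⊕ Fin (2 * n - 3 + 3 * s) → ℕ, Function.Injective g ∧ (∀ v, 0 < g v) ∧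
      ∀ u v, u ≠ v → ((G ⊕g ⊥).Adj u v ↔ ∃ w, g u + g v = g w) := by
  obtain ⟨lv, v1, v2, v3, v4⟩ : ∃ lv : ℕ → ℕ × ℕ, (∀ v < n, lv v = (1, n + π v)) ∧
      (∀ x < N, lv (n + x) = (16 + 4 * col x, T - t x)) ∧
      (∀ i < s, lv (n + N + i) = (1, n + 1 - R * (y i + 1))) ∧
      ∀ i, lv (n + N + s + i) = (1, 3 * n - 2 - R * y i) :=
    ⟨fun v => if v < n then (1, n + π v) else if v < n + N then (16 + 4 * col (v - n), T - t (v - n)) else
      if v < n + N + s then (1, n + 1 - R * (y (v - (n + N)) + 1)) else (1, 3 * n - 2 - R * y (v - (n + N + s))),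
      fun v h => if_pos h, fun x h => by simp [h], fun i h => by
        beta_reduce
        rw [if_neg (by omega), if_neg (by omega), if_pos (by omega), Nat.add_sub_cancel_left], fun i => by
        beta_reduce
        rw [if_neg (by omega), if_neg (by omega), if_neg (by omega), Nat.add_sub_cancel_left]⟩
  obtain ⟨li, i1, i2⟩ : ∃ li : ℕ → ℕ × ℕ, (∀ j < 2 * n - 3, li j = (2, 2 * n + 1 + j)) ∧
      ∀ c < 3, ∀ i, li (2 * n - 3 + (3 * i + c)) = (17 + 4 * c, n + T + (R * y i + S c i)) :=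
    ⟨fun j => if j < 2 * n - 3 then (2, 2 * n + 1 + j) else (17 + 4 * ((j - (2 * n - 3)) % 3),
      n + T + (R * y ((j - (2 * n - 3)) / 3) + S ((j - (2 * n - 3)) % 3) ((j - (2 * n - 3)) / 3))),
      fun j h => if_pos h, fun c h i => by
        simp [Nat.mod_eq_of_lt h, Nat.mul_add_div, Nat.div_eq_of_lt h]⟩
  have cv : ∀ v < n + N + s + s, v < n ∨ (∃ x < N, v = n + x) ∨ (∃ i < s, v = n + N + i) ∨
      ∃ i < s, v = n + N + s + i := fun v hv => by
    by_cases a : v < n
    · exact Or.inl a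
    by_cases b : v < n + N
    · exact Or.inr (Or.inl ⟨v - n, by omega, by omega⟩)
    by_cases c : v < n + N + s
    · exact Or.inr (Or.inr (Or.inl ⟨v - (n + N), by omega, by omega⟩))
    exact Or.inr (Or.inr (Or.inr ⟨v - (n + N + s), by omega, by omega⟩))
  have ci : ∀ j < 2 * n - 3 + 3 * s, j < 2 * n - 3 ∨ ∃ c < 3, ∃ i < s, j = 2 * n - 3 + (3 * i + c) :=
    fun j hj => (lt_or_ge j _).imp_right fun h =>
      ⟨(j - (2 * n - 3)) % 3, by omega, (j - (2 * n - 3)) / 3, by omega, by omega⟩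
  have yb : ∀ i < s, R * 10 ≤ R * y i ∧ R * y i + R * 11 ≤ n ∧ R * (y i + 1) = R * y i + R := fun i hi =>
    ⟨Nat.mul_le_mul_left _ (hy i hi).1, by rw [← mul_add]; exact (hy i hi).2, by ring⟩
  have ry : ∀ i < s, ∀ j < s, R * y i = R * y j → i = j := fun i hi j hj e =>
    yi i hi j hj (Nat.eq_of_mul_eq_mul_left hR e)
  let f : Fin (n + N + s + s) ⊕ Fin (2 * n - 3 + 3 * s) → ℕ × ℕ := Sum.elim (fun v => lv v) fun j => li j
  have f1 : ∀ v : Fin (n + N + s + s), (lv v).1 = 1 ∨ (lv v).1 = 16 ∨ (lv v).1 = 20 ∨ (lv v).1 = 24 :=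
    fun v => by
      rcases cv v v.2 with a | ⟨x, a, b⟩ | ⟨x, a, b⟩ | ⟨x, a, b⟩
      · simp [v1 v a]
      · have := hc x; rw [b, v2 x a]; simp only; omega
      · simp [b, v3 x a]
      · simp [b, v4 x]
  have f2 : ∀ j : Fin (2 * n - 3 + 3 * s), (li j).1 = 2 ∨ (li j).1 = 17 ∨ (li j).1 = 21 ∨ (li j).1 = 25 :=
    fun j => by
      rcases ci j j.2 with a | ⟨c, a, x, -, b⟩
      · simp [i1 j a]
      · rw [b, i2 c a]; simp only; omega
  have r1 : ∀ o o', (∃ z, ((1, o) + (1, o') : ℕ × ℕ) = f z) ↔ 2 * n + 1 ≤ o + o' ∧ o + o' + 3 ≤ 4 * n :=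
    fun o o' => by
      refine ⟨?_, fun ⟨a, b⟩ => ⟨.inr ⟨o + o' - (2 * n + 1), by omega⟩, ?_⟩⟩
      · rintro ⟨v | j, e⟩ <;> simp only [f, Sum.elim_inl, Sum.elim_inr, Prod.ext_iff, Prod.mk_add_mk] at e
        · have := f1 v; omega
        · rcases ci j j.2 with a | ⟨c, a, x, -, b⟩
          · rw [i1 j a] at e; omega
          · rw [b, i2 c a] at e; omega
      · simp only [f, Sum.elim_inr, Prod.mk_add_mk]
        rw [i1 _ (by omega)]; congr 1; omega
  have r2 : ∀ o, ∀ x < N, (∃ z, ((1, o) + (16 + 4 * col x, T - t x) : ℕ × ℕ) = f z) ↔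
      ∃ i < s, o = n + π (w i x) := fun o x hx => by
    have := hc x
    have := tT x hx
    constructor
    · rintro ⟨v | j, e⟩ <;> simp only [f, Sum.elim_inl, Sum.elim_inr, Prod.ext_iff, Prod.mk_add_mk] at e
      · have := f1 v; omega
      · rcases ci j j.2 with a | ⟨c, a, i, hi, b⟩
        · rw [i1 j a] at e; omega
        · rw [b, i2 c a] at e
          obtain rfl : c = col x := by omega
          exact ⟨i, hi, by rw [pw i hi x hx]; omega⟩
    · rintro ⟨i, hi, rfl⟩
      refine ⟨.inr ⟨2 * n - 3 + (3 * i + col x), by omega⟩, ?_⟩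
      simp only [f, Sum.elim_inr, Prod.mk_add_mk]
      rw [i2 _ (hc x), pw i hi x hx]; congr 1 <;> omega
  have r3 : ∀ c o c' o', (∃ z, ((16 + c, o) + (16 + c', o') : ℕ × ℕ) = f z) ↔ False := fun c o c' o' => by
    refine ⟨?_, False.elim⟩
    rintro ⟨v | j, e⟩ <;> simp only [f, Sum.elim_inl, Sum.elim_inr, Prod.ext_iff, Prod.mk_add_mk] at e
    · have := f1 v; omega
    · have := f2 j; omega
  have main : ∀ u v, u < v → v < n + N + s + s → lv u ≠ lv v ∧
      (adj0 n N s R y w u v ∨ adj0 n N s R y w v u ↔ ∃ z, lv u + lv v = f z) := fun u v h hv => by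
    rcases cv u (by omega) with a | ⟨x, a, rfl⟩ | ⟨x, a, rfl⟩ | ⟨x, a, rfl⟩ <;>
      rcases cv v hv with b | ⟨z, b, rfl⟩ | ⟨z, b, rfl⟩ | ⟨z, b, rfl⟩ <;> try omega
    · have := pn u a
      have := pn v b
      have := pi u v
      rw [v1 u a, v1 v b, r1]
      exact ⟨by simp; omega, fun _ => by omega, fun _ => Or.inl (Or.inl ⟨a, b⟩)⟩
    · rw [v1 u a, v2 z b, r2 _ z b, aKX a b]
      refine ⟨by simp; omega, exists_congr fun i => and_congr_right fun _ => ⟨fun e => by rw [e], fun e =>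
        pi _ _ (by omega)⟩⟩
    · have := yb z b
      have := pm u (y z + 1)
      have := pn u a
      rw [v1 u a, v3 z b, r1, aKl a b]
      exact ⟨by simp; omega, by omega⟩
    · have := yb z b
      have := pm u (y z)
      have := pn u a
      rw [v1 u a, v4 z, r1, aKh a]
      exact ⟨by simp; omega, by omega⟩
    · have := tT x a
      have := tT z b
      have := ti x a z b
      rw [v2 x a, v2 z b, r3, aO (by omega) h, iff_false]
      exact ⟨by simp; omega, by omega⟩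
    · have := yb z b
      rw [v2 x a, v3 z b, add_comm (_, _), r2 _ x a, aO (by omega) h]
      exact ⟨by simp; omega, fun _ => by omega, fun ⟨i, hi, e⟩ => by omega⟩
    · have := yb z b
      rw [v2 x a, v4 z, add_comm (_, _), r2 _ x a, aO (by omega) h]
      refine ⟨by simp; omega, fun _ => by omega, fun ⟨i, hi, e⟩ => ?_⟩
      have := pn _ (wn i hi x a)
      omega
    · have := yb x a
      have := yb z b
      have := ry x a z b
      rw [v3 x a, v3 z b, r1, aO (by omega) h]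
      exact ⟨by simp; omega, by omega⟩
    · have := yb x a
      have := yb z b
      rw [v3 x a, v4 z, r1, aO (by omega) h]
      exact ⟨by simp; omega, by omega⟩
    · have := yb x a
      have := yb z b
      have := ry x a z b
      rw [v4 x, v4 z, r1, aO (by omega) h]
      exact ⟨by simp; omega, by omega⟩
  have no : ∀ (j : Fin (2 * n - 3 + 3 * s)) u z, f (.inr j) + f u ≠ f z := fun j u z e => by
    have e := congrArg Prod.fst e
    have := f2 j
    rcases u with u | u <;> rcases z with z | z <;>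
      simp only [f, Sum.elim_inl, Sum.elim_inr, Prod.fst_add] at e
    · have := f1 u; have := f1 z; omega
    · have := f1 u; have := f2 z; omega
    · have := f2 u; have := f1 z; omega
    · have := f2 u; have := f2 z; omega
  refine of_pairs _ f ?_ ?_ ?_
  · rintro (u | u) (v | v) e <;> simp only [f, Sum.elim_inl, Sum.elim_inr] at e
    · rcases lt_trichotomy u v with h | h | h
      · exact absurd e (main u v h v.2).1
      · rw [h]
      · exact absurd e.symm (main v u h u.2).1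
    · have := f1 u; have := f2 v; rw [e] at *; omega
    · have := f2 u; have := f1 v; rw [e] at *; omega
    · refine congrArg _ (Fin.ext ?_)
      rcases ci u u.2 with a | ⟨c, a, x, hx, b⟩ <;> rcases ci v v.2 with a' | ⟨c', a', x', hx', b'⟩
      · rw [i1 u a, i1 v a'] at e; simpa using e
      · rw [i1 u a, b', i2 c' a'] at e; simp at e; omega
      · rw [i1 v a', b, i2 c a] at e; simp at e; omega
      · rw [b, b', i2 c a, i2 c' a', Prod.ext_iff] at e
        obtain rfl : c = c' := by simpa using e.1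
        have := yi x hx x' hx' (dm (SR c a x) (SR c a x') (by simpa using e.2)).1
        omega
  · rintro (u | u) <;> simp only [f, Sum.elim_inl, Sum.elim_inr]
    · have := f1 u; omega
    · have := f2 u; omega
  · rintro (u | u) (v | v) e
    · have e' : u ≠ v := fun k => e (k ▸ rfl)
      rw [SimpleGraph.sum_adj_inl, hG, and_iff_right e']
      rcases lt_or_gt_of_ne e' with h | h
      · exact (main u v h v.2).2
      · rw [or_comm, add_comm (f _)]; exact (main v u h u.2).2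
    · simpa [add_comm] using no v (.inl u)
    · simpa using no u (.inl v)
    · simpa using no u (.inr v)

end Pool.Agent.H.MP_daf980_lc
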