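import Pool.Agent.H.MP_daf980_lc.D
import Pool.Agent.Lib.lead.CXGraphRed

set_option autoImplicit false

namespace Pool.Agent.H.MP_daf980_lc
open Finset Pool.Agent.Lib.CX

theorem no {n N s R m k b : ℕ} {y : ℕ → ℕ} {w : ℕ → ℕ → ℕ} (hm : m = n + N + s + s) (G : SimpleGraph (Fin m))
    (hG : ∀ u v, G.Adj u v ↔ u ≠ v ∧ (adj0 n N s R y w u v ∨ adj0 n N s R y w v u))
    (hk : k ≤ 2 * n - 3 + 3 * s) {g : Fin m ⊕ Fin k → ℕ} (g1 : Function.Injective g) (g2 : ∀ v, 0 < g v)
    (g3 : ∀ u v, u ≠ v → ((G ⊕g ⊥).Adj u v ↔ ∃ w, g u + g v = g w))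
    (hw : ∀ i < s, ∀ x < N, R * y i ≤ w i x ∧ w i x < R * (y i + 1))
    (hy : ∀ i < s, 10 ≤ y i ∧ R * (y i + 11) ≤ n) (hR : 20 * (5 * s + N) + 40 ≤ R)
    (sid : ∀ i < s, ∀ j < s, ∀ u < s, ∀ v < s, y i + y v < y j + y u + 5 → y j + y u < y i + y v + 5 →
      (i = j ∧ u = v) ∨ (i = u ∧ j = v)) (hN : 3 ≤ N) (hs : 4 * b + N + 6 < s)
    (ha : ∀ x < 3, ∀ x' < 3, ∀ i, b ≤ i → w i x = w i x') :
    ∃ col : ℕ → Fin 3, ∀ x < N, ∀ x' < N, x ≠ x' → col x = col x' →
      #((range s).filter fun i => w i x = w i x') ≤ 2 * N + 6 := by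
  obtain ⟨l, hl⟩ : ∃ l : ℕ → ℤ, ∀ v : Fin m, l v = g (.inl v) :=
    ⟨fun v => if h : v < m then g (.inl ⟨v, h⟩) else 0, fun v => dif_pos v.2⟩
  obtain ⟨L, hL⟩ : ∃ L : Finset ℤ, L = univ.image fun z => (g z : ℤ) := ⟨_, rfl⟩
  have mL : ∀ z, z ∈ L ↔ ∃ v, (g v : ℤ) = z := by simp only [hL, mem_image, mem_univ, true_and, implies_true]
  have li : ∀ u < m, ∀ v < m, l u = l v → u = v := fun u hu v hv e => by
    have := g1 (show g (.inl ⟨u, hu⟩) = g (.inl ⟨v, hv⟩) by
      have := hl ⟨u, hu⟩; have := hl ⟨v, hv⟩; simp only at *; omega)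
    simpa using this
  have lL : ∀ u < m, l u ∈ L := fun u hu => (mL _).2 ⟨_, (hl ⟨u, hu⟩).symm⟩
  have ad : ∀ u < m, ∀ v < m, u ≠ v → (l v + l u ∈ L ↔ adj0 n N s R y w u v ∨ adj0 n N s R y w v u) :=
    fun u hu v hv e => by
      have := g3 (.inl ⟨u, hu⟩) (.inl ⟨v, hv⟩) (by simpa using e)
      rw [SimpleGraph.sum_adj_inl, hG, and_iff_right (by simpa using e)] at this
      rw [this, mL, hl ⟨u, hu⟩, hl ⟨v, hv⟩]
      exact exists_congr fun z => by omega
  have y0 := hy 0 (by omega)
  have nR : R * 21 ≤ n := le_trans (Nat.mul_le_mul_left _ (by omega)) y0.2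
  obtain ⟨h, P1, P3, P5⟩ := geo (k := l) (X := fun x => l (n + x)) (tl := fun i => l (n + N + i))
    (th := fun i => l (n + N + s + i)) (L := L) (T := (Ico (n + N) m).image l)
    (fun z hz => by obtain ⟨v, rfl⟩ := (mL z).1 hz; exact_mod_cast g2 v)
    (fun i hi j hj => li i (by omega) j (by omega)) (fun i hi => lL i (by omega))
    (fun i hi => lL _ (by omega))
    (fun z hz => by obtain ⟨v, a, rfl⟩ := mem_image.1 hz; exact lL v (mem_Ico.1 a).2)
    (fun i hi hz => by
      obtain ⟨v, a, e⟩ := mem_image.1 hz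
      rw [mem_Ico] at a
      have := li v a.2 i (by omega) e
      omega)
    (by
      rw [card_image_of_injOn fun i hi j hj => li i (mem_Ico.1 (mem_coe.1 hi)).2 j (mem_Ico.1 (mem_coe.1 hj)).2,
        Nat.card_Ico]
      omega)
    (fun t => by
      simp only [mem_image, mem_Ico]
      constructor
      · rintro ⟨v, a, rfl⟩
        by_cases e : v < n + N + s
        · exact ⟨v - (n + N), by omega, Or.inl (congrArg _ (by omega))⟩
        · exact ⟨v - (n + N + s), by omega, Or.inr (congrArg _ (by omega))⟩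
      · rintro ⟨i, a, rfl | rfl⟩ <;> exact ⟨_, by omega, rfl⟩)
    (fun i hi j hj e => (ad j (by omega) i (by omega) e.symm).2 (Or.inl (Or.inl ⟨hj, hi⟩)))
    (fun z hz a b c u hu e f => by
      obtain ⟨z, rfl⟩ := (mL z).1 hz
      obtain ⟨u, rfl⟩ := (mL u).1 hu
      obtain ⟨v, hv⟩ := (mL _).1 f
      have := (g3 z u fun k => e (k ▸ rfl)).2 ⟨v, by omega⟩
      rcases z with z | z
      · rw [← hl] at a b c
        by_cases e1 : z < n
        · exact a z e1 rfl
        by_cases e2 : z < n + N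
        · exact b (z - n) (by omega) (congrArg _ (by omega))
        · exact c (mem_image_of_mem _ (mem_Ico.2 ⟨by omega, z.2⟩))
      · rcases u with u | u <;> simp at this)
    (fun x hx j hj => (ad j (by omega) _ (by omega) (by omega)).trans (aKX hj hx))
    (fun x hx j hj => (ad j (by omega) _ (by omega) (by omega)).trans (aKl hj hx))
    (fun x hx j hj => (ad j (by omega) _ (by omega) (by omega)).trans (aKh hj))
    (by
      have := card_image_le (s := univ) (f := fun z => (g z : ℤ))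
      rw [← hL] at this
      simp only [card_univ, Fintype.card_sum, Fintype.card_fin] at this
      omega) hw hy hR (by omega) sid
  have ne : ∀ x < N, ∀ x' < N, x ≠ x' → ∀ i, w i x = w i x' → l (n + x) + l (w i x) ≠ l (n + x') + l (w i x') :=
    fun x hx x' hx' e i a b => by
      rw [a] at b
      have := li _ (by omega) _ (by omega) (add_right_cancel b)
      omega
  obtain ⟨col, hc⟩ := comb (f := fun x i => l (n + x) + l (w i x)) hN (by omega) hs P1 P3 P5
    fun x hx x' hx' e i a _ => ne x (by omega) x' (by omega) e i (ha x hx x' hx' i a)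
  exact ⟨col, fun x hx x' hx' e f => le_trans (card_le_card fun i hi =>
    mem_filter.2 ⟨(mem_filter.1 hi).1, ne x hx x' hx' e i (mem_filter.1 hi).2⟩) (hc x hx x' hx' f)⟩

def pN (a : Gr) : ℕ := a.1.length + 3
def pb (a : Gr) : ℕ := (2 * pN a + 7) * a.2.length
def ps (a : Gr) : ℕ := 4 * pb a + pN a + 7
def pR (a : Gr) : ℕ := 15 * pN a * pN a * pN a + (20 * (5 * ps a + pN a) + 40)
def pn (a : Gr) : ℕ := pR a * (21 + 15 * ps a * ps a * ps a)
def py (a : Gr) (i : ℕ) : ℕ := 10 + 5 * sd (ps a) i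
def pQ (a : Gr) (i x : ℕ) : Prop := (i < pb a ∧ (x = (a.2.getD (i / (2 * pN a + 7)) (0, 0)).1 + 3 ∨
  x = (a.2.getD (i / (2 * pN a + 7)) (0, 0)).2 + 3)) ∨ (pb a ≤ i ∧ x < 3)
instance (a : Gr) (i x : ℕ) : Decidable (pQ a i x) := by unfold pQ; infer_instance
def pw (a : Gr) (i x : ℕ) : ℕ := pR a * py a i + if pQ a i x then 0 else x + 1
def pm (a : Gr) : ℕ := pn a + pN a + ps a + ps a
instance (n N s R : ℕ) (y : ℕ → ℕ) (w : ℕ → ℕ → ℕ) (u v : ℕ) : Decidable (adj0 n N s R y w u v) := by
  unfold adj0; infer_instance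
def red (a : Gr) : Gr × ℕ := ((List.replicate (pm a) (), (List.range (pm a) ×ˢ List.range (pm a)).filter
  fun p => adj0 (pn a) (pN a) (ps a) (pR a) (py a) (pw a) p.1 p.2), 2 * pn a - 3 + 3 * ps a)

section
variable {α : Type} [Enc α] {a : α → Gr} {i x : α → ℕ}

@[fun_prop] lemma pt_N (h : PT a) : PT fun z => pN (a z) := by unfold pN; fun_prop
@[fun_prop] lemma pb_N (h : PT a) : PB fun z => pN (a z) := by unfold pN; fun_prop
attribute [local irreducible] pN
@[fun_prop] lemma pt_b (h : PT a) : PT fun z => pb (a z) := by unfold pb; fun_prop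
@[fun_prop] lemma pb_b (h : PT a) : PB fun z => pb (a z) := by unfold pb; fun_prop
attribute [local irreducible] pb
@[fun_prop] lemma pt_s (h : PT a) : PT fun z => ps (a z) := by unfold ps; fun_prop
@[fun_prop] lemma pb_s (h : PT a) : PB fun z => ps (a z) := by unfold ps; fun_prop
attribute [local irreducible] ps
@[fun_prop] lemma pt_R (h : PT a) : PT fun z => pR (a z) := by unfold pR; fun_prop
@[fun_prop] lemma pb_R (h : PT a) : PB fun z => pR (a z) := by unfold pR; fun_prop
attribute [local irreducible] pR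
@[fun_prop] lemma pt_n (h : PT a) : PT fun z => pn (a z) := by unfold pn; fun_prop
@[fun_prop] lemma pb_n (h : PT a) : PB fun z => pn (a z) := by unfold pn; fun_prop
attribute [local irreducible] pn
@[fun_prop] lemma pt_m (h : PT a) : PT fun z => pm (a z) := by unfold pm; fun_prop
@[fun_prop] lemma pb_m (h : PT a) : PB fun z => pm (a z) := by unfold pm; fun_prop
@[fun_prop] lemma pt_y (h : PT a) (hi : PT i) : PT fun z => py (a z) (i z) := by unfold py sd; fun_prop
attribute [local irreducible] pm py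
@[fun_prop] lemma pt_Q {k : ∀ z, Decidable (pQ (a z) (i z) (x z))} (h : PT a) (hi : PT i) (hx : PT x) :
    PT fun z => @decide (pQ (a z) (i z) (x z)) (k z) := by
  have e : PT fun z => (a z).2.getD (i z / (2 * pN (a z) + 7)) (0, 0) := by fun_prop
  have h1 : PT fun z => decide (i z < pb (a z)) := by fun_prop
  have h2 := PT.decide_eq (k := fun _ => inferInstance) hx (e.fst.add (PT.const 3))
  have h3 := PT.decide_eq (k := fun _ => inferInstance) hx (e.snd.add (PT.const 3))
  have h4 : PT fun z => decide (pb (a z) ≤ i z) := by fun_prop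
  have h5 : PT fun z => decide (x z < 3) := by fun_prop
  exact ((h1.and (h2.or h3)).or (h4.and h5)).congr fun z => by
    rw [Bool.eq_iff_iff]; simp only [pQ, Bool.and_eq_true, Bool.or_eq_true, decide_eq_true_eq]
attribute [local irreducible] pQ
@[fun_prop] lemma pt_w (h : PT a) (hi : PT i) (hx : PT x) : PT fun z => pw (a z) (i z) (x z) := by
  unfold pw; fun_prop
attribute [local irreducible] pw

lemma pt_adj (h : PT a) (hi : PT i) (hx : PT x) : PT fun z => decide (adj0 (pn (a z)) (pN (a z)) (ps (a z))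
    (pR (a z)) (py (a z)) (pw (a z)) (i z) (x z)) := by
  have h1 : PT fun z => decide (i z < pn (a z)) := by fun_prop
  have h2 : PT fun z => decide (x z < pn (a z)) := by fun_prop
  have h3 : PT fun z => decide (pn (a z) ≤ x z) := by fun_prop
  have h4 : PT fun z => decide (x z < pn (a z) + pN (a z)) := by fun_prop
  have h5 : PT fun z => decide (∃ j < ps (a z), i z = pw (a z) j (x z - pn (a z))) := by fun_prop
  have h6 : PT fun z => decide (pn (a z) + pN (a z) ≤ x z) := by fun_prop
  have h7 : PT fun z => decide (x z < pn (a z) + pN (a z) + ps (a z)) := by fun_prop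
  have h8 : PT fun z => decide (pR (a z) * (py (a z) (x z - (pn (a z) + pN (a z))) + 1) ≤ i z) := by fun_prop
  have h9 : PT fun z => decide (pn (a z) + pN (a z) + ps (a z) ≤ x z) := by fun_prop
  have h10 : PT fun z => decide (i z < pR (a z) * py (a z) (x z - (pn (a z) + pN (a z) + ps (a z)))) := by
    fun_prop
  have h11 : PT fun z => decide (pn (a z) + pN (a z) ≤ i z) := by fun_prop
  have h12 : PT fun z => decide (i z < pn (a z) + pN (a z) + ps (a z)) := by fun_prop
  exact ((h1.and h2).or ((h1.and (h3.and (h4.and h5))).or ((h1.and (h6.and (h7.and h8))).or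
    ((h1.and (h9.and h10)).or (h11.and (h12.and h9)))))).congr fun z => by
      rw [Bool.eq_iff_iff]; simp only [adj0, Bool.and_eq_true, Bool.or_eq_true, decide_eq_true_eq]

lemma pt_red : PT red :=
  PT.pair (PT.pair (by fun_prop) (PT.filter (pt_adj PT.fst' (by fun_prop) (by fun_prop)) (by fun_prop)))
    (by fun_prop)
end

lemma pw_eq {a : Gr} {i x x' : ℕ} (h : pQ a i x) (h' : pQ a i x') : pw a i x = pw a i x' := by
  rw [pw, pw, if_pos h, if_pos h']

theorem main (a : Gr) : a.G.Colorable 3 ↔ ∃ k ≤ (red a).2, ∃ g : Fin (red a).1.n ⊕ Fin k → ℕ,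
    Function.Injective g ∧ (∀ v, 0 < g v) ∧
      ∀ u v, u ≠ v → (((red a).1.G ⊕g ⊥).Adj u v ↔ ∃ w, g u + g v = g w) := by
  have hm : (red a).1.n = pn a + pN a + ps a + ps a := List.length_replicate
  have hG : ∀ u v, (red a).1.G.Adj u v ↔ u ≠ v ∧ (adj0 (pn a) (pN a) (ps a) (pR a) (py a) (pw a) u v ∨
      adj0 (pn a) (pN a) (ps a) (pR a) (py a) (pw a) v u) := fun u v => by
    have hu : u.1 < pm a := u.2.trans_eq hm
    have hv : v.1 < pm a := v.2.trans_eq hm
    simp [Gr.G, red, hu, hv]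
  have hN : pN a = a.1.length + 3 := rfl
  have hs : ps a = 4 * pb a + pN a + 7 := rfl
  have hR : pR a = 15 * pN a * pN a * pN a + (20 * (5 * ps a + pN a) + 40) := rfl
  have hy : ∀ i < ps a, 10 ≤ py a i ∧ pR a * (py a i + 11) ≤ pn a := fun i hi =>
    ⟨Nat.le_add_right _ _, Nat.mul_le_mul_left _ (by have := sd_lt hi; unfold py; linarith)⟩
  have hw : ∀ i < ps a, ∀ x < pN a, pR a * py a i ≤ pw a i x ∧ pw a i x < pR a * (py a i + 1) :=
    fun i hi x hx => by rw [mul_add, pw]; split_ifs <;> omega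
  have yi : ∀ i < ps a, ∀ j < ps a, py a i = py a j → i = j := fun i hi j hj e =>
    sd_inj hi hj (by unfold py at e; omega)
  constructor
  · rintro ⟨C⟩
    obtain ⟨col, c1, c2, c3⟩ : ∃ col : ℕ → ℕ, (∀ x, col x < 3) ∧ (∀ x < 3, col x = x) ∧
        ∀ v : Fin a.n, col (v + 3) = C v :=
      ⟨fun x => if x < 3 then x else if h : x - 3 < a.n then C ⟨x - 3, h⟩ else 0, fun x => by
        beta_reduce; split_ifs <;> omega, fun x h => if_pos h, fun v => by simp⟩
    obtain ⟨π, S, p1, p2, p3, p4, p5⟩ := place (N := pN a) (s := ps a) (R := pR a) (n := pn a) (y := py a)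
      (Q := pQ a) (col := col) (by omega) (by omega) (Dvd.intro _ rfl) yi c1 fun i hi x hx x' hx' q q' e => by
        by_contra k
        rcases q with ⟨q1, q⟩ | q <;> rcases q' with ⟨q2, q'⟩ | q' <;> try omega
        · have : a.2.getD (i / (2 * pN a + 7)) (0, 0) ∈ a.2 := by
            rw [List.getD_eq_getElem _ _ (Nat.div_lt_of_lt_mul q1)]; exact List.getElem_mem _
          generalize a.2.getD (i / (2 * pN a + 7)) (0, 0) = p at *
          obtain ⟨u, rfl⟩ : ∃ u : Fin a.n, x = u + 3 := ⟨⟨x - 3, by simp only [Gr.n]; omega⟩, by simp; omega⟩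
          obtain ⟨v, rfl⟩ : ∃ u : Fin a.n, x' = u + 3 := ⟨⟨x' - 3, by simp only [Gr.n]; omega⟩, by simp; omega⟩
          rw [c3, c3] at e
          refine C.valid (v := u) (w := v) ?_ (Fin.ext e)
          rw [Gr.G, SimpleGraph.fromRel_adj]
          refine ⟨fun f => k (f ▸ rfl), ?_⟩
          rcases q with q | q <;> rcases q' with q' | q' <;> try omega
          · exact Or.inl (by rwa [show (u.1, v.1) = p from Prod.ext (by simpa using q) (by simpa using q')])
          · exact Or.inr (by rwa [show (v.1, u.1) = p from Prod.ext (by simpa using q') (by simpa using q)])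
        · rw [c2 x q.2, c2 x' q'.2] at e; exact k e
    refine ⟨_, le_rfl, ?_⟩
    generalize (red a).1.G = G at hG ⊢
    generalize (red a).1.n = m at *
    subst hm
    exact yes G hG c1 p1 p2 p3 p4 p5 (fun x => sd_lt) (fun x hx x' => sd_inj hx) yi hy (by omega)
      (fun i hi x hx => by have := hw i hi x hx; have := hy i hi; simp only [mul_add] at *; omega)
      (by have := hy 0 (by omega); simp only [mul_add] at *; omega)
  · rintro ⟨k, hk, g, g1, g2, g3⟩
    obtain ⟨col, hc⟩ := no (b := pb a) hm _ hG hk g1 g2 g3 hw hy (by omega) (fun i hi j hj u hu v hv e f =>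
      sidon hi hj hu hv (by unfold py at e f; omega)) (by omega) (by omega) fun x hx x' hx' i hi => by
        exact pw_eq (Or.inr ⟨hi, hx⟩) (Or.inr ⟨hi, hx'⟩)
    have key : ∀ u v : Fin a.n, u ≠ v → (u.1, v.1) ∈ a.2 → col (u + 3) ≠ col (v + 3) := fun u v e h f => by
      have h1 := hc (u + 3) (by have := u.2; simp only [Gr.n] at this; omega) (v + 3)
        (by have := v.2; simp only [Gr.n] at this; omega) (by simpa [Fin.ext_iff] using e) f
      obtain ⟨j, hj, h⟩ := List.getElem_of_mem h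
      have h2 : (2 * pN a + 7) * (j + 1) ≤ pb a := Nat.mul_le_mul_left _ hj
      have := card_le_card (show Ico ((2 * pN a + 7) * j) ((2 * pN a + 7) * (j + 1)) ⊆
        (range (ps a)).filter fun i => pw a i (u + 3) = pw a i (v + 3) from fun i hi => by
          rw [mem_Ico] at hi
          have e : a.2.getD (i / (2 * pN a + 7)) (0, 0) = (u.1, v.1) := by
            rw [Nat.div_eq_of_lt_le (k := j) (by linarith) (by linarith), List.getD_eq_getElem _ _ hj, h]
          refine mem_filter.2 ⟨mem_range.2 (by omega), ?_⟩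
          exact pw_eq (Or.inl ⟨by omega, Or.inl (by rw [e])⟩) (Or.inl ⟨by omega, Or.inr (by rw [e])⟩))
      rw [Nat.card_Ico, mul_add] at this
      omega
    refine ⟨SimpleGraph.Coloring.mk (fun v => col (v + 3)) fun {u v} h => ?_⟩
    rw [Gr.G, SimpleGraph.fromRel_adj] at h
    exact h.2.elim (key u v h.1) fun f => (key v u h.1.symm f).symm

end Pool.Agent.H.MP_daf980_lc
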